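import Mathlib

/-!
# `Out(F_n)` as a finite pushout of finite subgroups: definitions for the presentation part

Letters are pairs `(i, b) : ι × Bool` (`(i, true)` is the generator, `(i, false)` its inverse).
-/

set_option autoImplicit false

namespace Pool.Agent.Helper96.OP

/-- Letters: generators and their inverses. -/
abbrev Ltr (ι : Type) := ι × Bool

variable {ι : Type}

/-- The inverse letter. -/
def inv (x : Ltr ι) : Ltr ι := (x.1, !x.2)

@[simp] lemma inv_inv (x : Ltr ι) : inv (inv x) = x := by simp [inv]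

@[simp] lemma inv_fst (x : Ltr ι) : (inv x).1 = x.1 := rfl

@[simp] lemma inv_snd (x : Ltr ι) : (inv x).2 = !x.2 := rfl

lemma inv_ne (x : Ltr ι) : inv x ≠ x := fun h => by
  have := congrArg Prod.snd h
  simp [inv] at this

lemma ne_inv (x : Ltr ι) : x ≠ inv x := (inv_ne x).symm

lemma inv_injective : Function.Injective (inv : Ltr ι → Ltr ι) := fun x y h => by
  rw [← inv_inv x, h, inv_inv]

lemma inv_eq_iff {x y : Ltr ι} : inv x = y ↔ x = inv y :=
  ⟨fun h => by rw [← h, inv_inv], fun h => by rw [h, inv_inv]⟩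

lemma eq_or_eq_inv {x y : Ltr ι} (h : x.1 = y.1) : x = y ∨ x = inv y := by
  obtain ⟨i, b⟩ := x
  obtain ⟨j, c⟩ := y
  simp only at h
  subst h
  cases b <;> cases c <;> simp [inv]

/-- A letter as an element of the free group. -/
def el (x : Ltr ι) : FreeGroup ι := FreeGroup.mk [x]

lemma el_true (i : ι) : el (i, true) = FreeGroup.of i := rfl

lemma el_inv (x : Ltr ι) : el (inv x) = (el x)⁻¹ := by
  obtain ⟨i, b⟩ := x
  simp [el, inv, FreeGroup.inv_mk, FreeGroup.invRev]

lemma el_false (i : ι) : el (i, false) = (FreeGroup.of i)⁻¹ := by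
  rw [← el_true, ← el_inv]
  rfl

/-- Signed permutations: the permutations of the letters that commute with inversion. -/
def W (ι : Type) : Subgroup (Equiv.Perm (Ltr ι)) where
  carrier := {w | ∀ x, w (inv x) = inv (w x)}
  mul_mem' := by
    intro v w hv hw x
    rw [Equiv.Perm.mul_apply, Equiv.Perm.mul_apply, hw, hv]
  one_mem' := fun x => rfl
  inv_mem' := by
    intro w hw x
    apply w.injective
    rw [hw]
    simp

/-- The action of a signed permutation on the letters. -/
def ap (w : W ι) (x : Ltr ι) : Ltr ι := (w : Equiv.Perm (Ltr ι)) x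

lemma ap_inv (w : W ι) (x : Ltr ι) : ap w (inv x) = inv (ap w x) := w.2 x

@[simp] lemma ap_one (x : Ltr ι) : ap 1 x = x := rfl

@[simp] lemma ap_mul (v w : W ι) (x : Ltr ι) : ap (v * w) x = ap v (ap w x) := rfl

@[simp] lemma ap_inv_ap (w : W ι) (x : Ltr ι) : ap w⁻¹ (ap w x) = x := by
  rw [← ap_mul, inv_mul_cancel, ap_one]

@[simp] lemma ap_ap_inv (w : W ι) (x : Ltr ι) : ap w (ap w⁻¹ x) = x := by
  rw [← ap_mul, mul_inv_cancel, ap_one]

lemma ap_injective (w : W ι) : Function.Injective (ap w) := Equiv.injective _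

lemma W_ext {v w : W ι} (h : ∀ x, ap v x = ap w x) : v = w := Subtype.ext (Equiv.ext h)

/-- The endomorphism of the free group induced by a signed permutation. -/
def homW (w : W ι) : FreeGroup ι →* FreeGroup ι := FreeGroup.lift fun i => el (ap w (i, true))

lemma homW_el (w : W ι) (x : Ltr ι) : homW w (el x) = el (ap w x) := by
  obtain ⟨i, b⟩ := x
  cases b
  · rw [el_false, map_inv, homW, FreeGroup.lift_apply_of, ← el_inv, ← ap_inv]
    rfl
  · rw [el_true, homW, FreeGroup.lift_apply_of]

/-- The action of the signed permutations on the free group. -/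
def autW : W ι →* MulAut (FreeGroup ι) where
  toFun w :=
    { toFun := homW w
      invFun := homW w⁻¹
      left_inv := fun g => by
        have h : (homW w⁻¹).comp (homW w) = MonoidHom.id (FreeGroup ι) := by
          ext i
          rw [MonoidHom.comp_apply, ← el_true, homW_el, homW_el, ap_inv_ap]
          rfl
        exact DFunLike.congr_fun h g
      right_inv := fun g => by
        have h : (homW w).comp (homW w⁻¹) = MonoidHom.id (FreeGroup ι) := by
          ext i
          rw [MonoidHom.comp_apply, ← el_true, homW_el, homW_el, ap_ap_inv]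
          rfl
        exact DFunLike.congr_fun h g
      map_mul' := map_mul _ }
  map_one' := by
    apply MulEquiv.toMonoidHom_injective
    ext i
    show homW 1 (FreeGroup.of i) = FreeGroup.of i
    rw [← el_true, homW_el, ap_one]
  map_mul' v w := by
    apply MulEquiv.toMonoidHom_injective
    ext i
    show homW (v * w) (FreeGroup.of i) = homW v (homW w (FreeGroup.of i))
    rw [← el_true, homW_el, homW_el, homW_el, ap_mul]

lemma autW_el (w : W ι) (x : Ltr ι) : autW w (el x) = el (ap w x) := homW_el w x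

lemma autW_of (w : W ι) (i : ι) : autW w (FreeGroup.of i) = el (ap w (i, true)) := by
  rw [← el_true, autW_el]

/-- Two automorphisms that agree on the letters `(i, true)` are equal. -/
lemma aut_ext {α β : MulAut (FreeGroup ι)} (h : ∀ i, α (FreeGroup.of i) = β (FreeGroup.of i)) :
    α = β := by
  apply MulEquiv.toMonoidHom_injective
  ext i
  exact h i

variable [DecidableEq ι]

/-- The involution of the letters exchanging `x ↔ y` and `x⁻¹ ↔ y⁻¹`. In particular
`sw x x = 1` and `sw x (inv x)` inverts `x`. -/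
def swFun (x y : Ltr ι) (z : Ltr ι) : Ltr ι :=
  if z = x then y else if z = y then x else if z = inv x then inv y else
    if z = inv y then inv x else z

lemma swFun_involutive (x y : Ltr ι) : Function.Involutive (swFun x y) := by
  intro z
  obtain ⟨i, b⟩ := x
  obtain ⟨j, c⟩ := y
  obtain ⟨k, d⟩ := z
  by_cases h1 : k = i <;> by_cases h2 : k = j <;> by_cases h3 : i = j <;>
    cases b <;> cases c <;> cases d <;> simp_all [swFun, inv]

lemma swFun_inv (x y z : Ltr ι) : swFun x y (inv z) = inv (swFun x y z) := by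
  obtain ⟨i, b⟩ := x
  obtain ⟨j, c⟩ := y
  obtain ⟨k, d⟩ := z
  by_cases h1 : k = i <;> by_cases h2 : k = j <;> by_cases h3 : i = j <;>
    cases b <;> cases c <;> cases d <;> simp_all [swFun, inv]

/-- The signed permutation exchanging `x ↔ y` and `x⁻¹ ↔ y⁻¹`. -/
def sw (x y : Ltr ι) : W ι := ⟨(swFun_involutive x y).toPerm, swFun_inv x y⟩

lemma sw_app (x y z : Ltr ι) : ap (sw x y) z = swFun x y z := rfl

lemma sw_mul_self (x y : Ltr ι) : sw x y * sw x y = 1 := W_ext fun z => swFun_involutive x y z

/-- The endomorphism `x_i ↦ a^{f(x_i)} x_i a^{-f(x_i⁻¹)}` for `i ≠ a.1`, fixing `x_{a.1}`. -/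
def homT (a : Ltr ι) (f : Ltr ι → ℤ) : FreeGroup ι →* FreeGroup ι :=
  FreeGroup.lift fun i => if i = a.1 then FreeGroup.of i else
    el a ^ f (i, true) * FreeGroup.of i * el a ^ (-f (i, false))

lemma homT_el (a : Ltr ι) (f : Ltr ι → ℤ) (x : Ltr ι) :
    homT a f (el x) = if x.1 = a.1 then el x else el a ^ f x * el x * el a ^ (-f (inv x)) := by
  obtain ⟨i, b⟩ := x
  cases b
  · rw [el_false, map_inv, homT, FreeGroup.lift_apply_of]
    split_ifs with h
    · rfl
    · simp [inv, mul_assoc]
  · rw [el_true, homT, FreeGroup.lift_apply_of]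
    rfl

lemma homT_self (a : Ltr ι) (f : Ltr ι → ℤ) : homT a f (el a) = el a := by
  rw [homT_el, if_pos rfl]

lemma homT_add (a : Ltr ι) (f g : Ltr ι → ℤ) (x : FreeGroup ι) :
    homT a f (homT a g x) = homT a (f + g) x := by
  have h : (homT a f).comp (homT a g) = homT a (f + g) := by
    ext i
    rw [MonoidHom.comp_apply, ← el_true, homT_el a g, homT_el a (f + g)]
    split_ifs with h
    · rw [homT_el, if_pos h]
    · rw [map_mul, map_mul, map_zpow, map_zpow, homT_self, homT_el, if_neg h]
      simp only [Pi.add_apply, zpow_add, neg_add, mul_assoc]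
      rw [← mul_assoc (el a ^ g (i, true)), ← zpow_add, add_comm (g (i, true)), zpow_add,
        mul_assoc, ← zpow_add (el a) (-f _), add_comm (-f _), zpow_add]
  exact DFunLike.congr_fun h x

lemma homT_zero (a : Ltr ι) (x : FreeGroup ι) : homT a 0 x = x := by
  have h : homT a (0 : Ltr ι → ℤ) = MonoidHom.id _ := by
    ext i
    rw [← el_true, homT_el]
    split_ifs <;> simp
  exact DFunLike.congr_fun h x

/-- The twist automorphism `x_i ↦ a^{f(x_i)} x_i a^{-f(x_i⁻¹)}` for `i ≠ a.1`. -/
def tw (a : Ltr ι) (f : Ltr ι → ℤ) : MulAut (FreeGroup ι) where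
  toFun := homT a f
  invFun := homT a (-f)
  left_inv := fun g => by rw [homT_add, neg_add_cancel, homT_zero]
  right_inv := fun g => by rw [homT_add, add_neg_cancel, homT_zero]
  map_mul' := map_mul _

lemma tw_el (a : Ltr ι) (f : Ltr ι → ℤ) (x : Ltr ι) :
    tw a f (el x) = if x.1 = a.1 then el x else el a ^ f x * el x * el a ^ (-f (inv x)) :=
  homT_el a f x

lemma tw_add (a : Ltr ι) (f g : Ltr ι → ℤ) : tw a (f + g) = tw a f * tw a g :=
  aut_ext fun i => (homT_add a f g (FreeGroup.of i)).symm

lemma tw_zero (a : Ltr ι) : tw a (0 : Ltr ι → ℤ) = 1 :=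
  aut_ext fun i => homT_zero a (FreeGroup.of i)

/-- The transvection `x ↦ a x` (trivial if `x.1 = a.1`). -/
def tv (x a : Ltr ι) : MulAut (FreeGroup ι) := tw a (Pi.single x 1)

/-- The automorphism attached to a cut `A` of `Option (Ltr ι)` (`none` is the base point) and a
letter `a`. -/
def twc (a : Ltr ι) (A : Finset (Option (Ltr ι))) : MulAut (FreeGroup ι) :=
  tw a fun x => (if some x ∈ A then 1 else 0) - (if none ∈ A then 1 else 0)

/-- A cut `A` is admissible for the letter `a` if `a ∈ A` and `a⁻¹ ∉ A`. -/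
def Adm (a : Ltr ι) (A : Finset (Option (Ltr ι))) : Prop := some a ∈ A ∧ some (inv a) ∉ A

/-- A group with elements satisfying Gersten's relations for `Aut(F_n)`. -/
structure Gersten (ι : Type) [DecidableEq ι] (G : Type) [Group G] where
  /-- the signed permutations -/
  ρ : W ι →* G
  /-- the transvections -/
  E : Ltr ι → Ltr ι → G
  E_self : ∀ x a, x.1 = a.1 → E x a = 1
  E_inv : ∀ x a, E x (inv a) = (E x a)⁻¹
  E_comm : ∀ x y a, E x a * E y a = E y a * E x a
  E_disj : ∀ x y a b, x ≠ y → x.1 ≠ a.1 → x.1 ≠ b.1 → y.1 ≠ a.1 → y.1 ≠ b.1 → a.1 ≠ b.1 →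
    E x a * E y b = E y b * E x a
  E_conj : ∀ x a b, x.1 ≠ a.1 → x.1 ≠ b.1 → a.1 ≠ b.1 →
    E a b * E x a * (E a b)⁻¹ = E x a * E x b
  E_rank : ∀ x a, x.1 ≠ a.1 →
    E a x * (E x a)⁻¹ * (E (inv a) x)⁻¹ = ρ (sw x (inv a) * sw a (inv a))
  E_act : ∀ w x a, ρ w * E x a * (ρ w)⁻¹ = E (ap w x) (ap w a)

/-- First letter of a group element (`none` for the identity). -/
def fl (g : FreeGroup ι) : Option (Ltr ι) := g.toWord.head?

/-- The half space of a set of letters (with base point `none`). -/
def hs (A : Finset (Option (Ltr ι))) : Set (FreeGroup ι) := {g | fl g ∈ A}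

/-- The number of edges of the Cayley graph of the tuple `w` that leave the set `K`. -/
noncomputable def cut [Fintype ι] (w : ι → FreeGroup ι) (K : Set (FreeGroup ι)) : ℕ :=
  ∑ i, {g : FreeGroup ι | ¬ (g ∈ K ↔ g * w i ∈ K)}.ncard

/-- The total length of a tuple. -/
def hgt [Fintype ι] (w : ι → FreeGroup ι) : ℕ := ∑ i, (w i).norm

end Pool.Agent.Helper96.OP
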