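import Pool.Agent.Helper96.OP.Defs

/-!
Definitions for the finite subgroups of `Out(F_n)`, `ι = Fin n`. The generator number `0` is the
circle `a`; the indices `Fin n` are also the names of the `n` legs, where the leg number `0` is
the collapsed one.
-/

set_option autoImplicit false

namespace Pool.Agent.Helper96.OP

/-- A permutation of the generators as a signed permutation. -/
def permW {ι : Type} : Equiv.Perm ι →* W ι where
  toFun π := ⟨Equiv.prodCongr π (Equiv.refl Bool), fun _ => rfl⟩
  map_one' := W_ext fun _ => rfl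
  map_mul' _ _ := W_ext fun _ => rfl

section
variable {n : ℕ} [NeZero n]

/-- The leg `j` as an element of the free group (the leg `0` is collapsed). -/
def leg (j : Fin n) : FreeGroup (Fin n) := if j = 0 then 1 else FreeGroup.of j

/-- The endomorphism induced by a permutation of the legs. -/
def homPsi (π : Equiv.Perm (Fin n)) : FreeGroup (Fin n) →* FreeGroup (Fin n) :=
  FreeGroup.lift fun j => if j = 0 then FreeGroup.of 0 else leg (π j) * (leg (π 0))⁻¹

lemma homPsi_zero (π : Equiv.Perm (Fin n)) : homPsi π (FreeGroup.of 0) = FreeGroup.of 0 := by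
  simp [homPsi]

lemma homPsi_leg (π : Equiv.Perm (Fin n)) (j : Fin n) :
    homPsi π (leg j) = leg (π j) * (leg (π 0))⁻¹ := by
  rw [leg]
  split_ifs with h
  · subst h
    simp
  · rw [homPsi, FreeGroup.lift_apply_of, if_neg h]

lemma homPsi_mul (π τ : Equiv.Perm (Fin n)) (x : FreeGroup (Fin n)) :
    homPsi π (homPsi τ x) = homPsi (π * τ) x := by
  have h : (homPsi π).comp (homPsi τ) = homPsi (π * τ) := by
    ext j
    rw [MonoidHom.comp_apply]
    by_cases hj : j = 0
    · subst hj
      simp only [homPsi_zero]
    · have hl : FreeGroup.of j = leg j := by rw [leg, if_neg hj]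
      rw [hl, homPsi_leg, homPsi_leg, map_mul, map_inv, homPsi_leg, homPsi_leg]
      simp [Equiv.Perm.mul_apply]
  exact DFunLike.congr_fun h x

lemma homPsi_one (x : FreeGroup (Fin n)) : homPsi 1 x = x := by
  have h : homPsi (1 : Equiv.Perm (Fin n)) = MonoidHom.id _ := by
    ext j
    by_cases hj : j = 0
    · subst hj
      simp only [homPsi_zero, MonoidHom.id_apply]
    · have hl : FreeGroup.of j = leg j := by rw [leg, if_neg hj]
      rw [hl, homPsi_leg]
      simp [leg, hj]
  exact DFunLike.congr_fun h x

/-- The action of the permutations of the legs on the free group (`x_j = e_j e_0⁻¹`). -/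
def Psi : Equiv.Perm (Fin n) →* MulAut (FreeGroup (Fin n)) where
  toFun π :=
    { toFun := homPsi π
      invFun := homPsi π⁻¹
      left_inv := fun x => by rw [homPsi_mul, inv_mul_cancel, homPsi_one]
      right_inv := fun x => by rw [homPsi_mul, mul_inv_cancel, homPsi_one]
      map_mul' := map_mul _ }
  map_one' := aut_ext fun i => homPsi_one (FreeGroup.of i)
  map_mul' π τ := aut_ext fun i => (homPsi_mul π τ (FreeGroup.of i)).symm

/-- The circle. -/
def cir : Ltr (Fin n) := (0, true)

/-- The inversion of the circle. -/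
def mm : W (Fin n) := sw cir (inv cir)

/-- The half turn `θ_k`: `x_j ↦ a x_j` for `1 ≤ j ≤ k`, `a ↦ a⁻¹`. -/
def Th (k : ℕ) : MulAut (FreeGroup (Fin n)) :=
  tw cir (fun x => if x.2 = true ∧ x.1 ≠ 0 ∧ (x.1 : ℕ) ≤ k then 1 else 0) * autW mm

/-- The reflection `i ↦ k + 1 - i` of the `n`-gon of the legs. -/
def rf (k : ℕ) : Equiv.Perm (Fin n) := Equiv.subLeft (Fin.ofNat n (k + 1))

/-- The reflections `F_k` of the wheel. -/
def Fl (k : ℕ) : MulAut (FreeGroup (Fin n)) := Th k * Psi (rf k)

end

instance innNormal (G : Type) [Group G] : (MulAut.conj (G := G)).range.Normal where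
  conj_mem := by
    rintro _ ⟨g, rfl⟩ α
    refine ⟨α g, ?_⟩
    ext x
    simp [MulAut.conj_apply]

/-- The outer automorphism group of the free group of rank `n`. -/
abbrev Out (n : ℕ) : Type :=
  MulAut (FreeGroup (Fin n)) ⧸ (MulAut.conj (G := FreeGroup (Fin n))).range

/-- The projection to the outer automorphism group. -/
def pr (n : ℕ) : MulAut (FreeGroup (Fin n)) →* Out n := QuotientGroup.mk' _

/-- The finite set of torsion elements of `Out(F_n)` that generate our finite subgroups. -/
def X (n : ℕ) [NeZero n] : Set (Out n) :=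
  pr n '' (Set.range (autW (ι := Fin n)) ∪ Set.range Psi ∪ {α | ∃ k < n, α = Th k ∨ α = Fl k})

end Pool.Agent.Helper96.OP
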