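import Pool.Agent.Helper31.OP.P
import Pool.Agent.Helper28.OP.Q1a
import Pool.Agent.Helper37.OP.Q1b
import Pool.Agent.Helper16.OP.A

/-!
Collection of the facts on automorphisms of free groups that are used.
-/

set_option autoImplicit false

namespace Pool.Agent.Helper96.OP

variable {ι : Type} [DecidableEq ι] [Fintype ι]

/-- Nielsen's theorem -/
theorem nielsen : Subgroup.closure (Set.range (autW (ι := ι)) ∪ {α | ∃ x a, α = tv x a}) = ⊤ :=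
  Pool.Agent.Helper31.OP.nielsen

omit [Fintype ι] in
theorem exists_gerstenAut : ∃ 𝔤 : Gersten ι (MulAut (FreeGroup ι)), 𝔤.ρ = autW ∧ 𝔤.E = tv :=
  Pool.Agent.Helper16.OP.exists_gerstenAut

theorem gersten_lift {K : Type} [Group K] (𝔤 : Gersten ι K) :
    ∃ Φ : MulAut (FreeGroup ι) →* K, (∀ v, Φ (autW v) = 𝔤.ρ v) ∧
      ∀ x a, Φ (tv x a) = 𝔤.E x a :=
  Pool.Agent.Helper31.OP.gersten_lift 𝔤

section Q1

variable {n : ℕ} [NeZero n]

theorem Psi_eq_autW (π : Equiv.Perm (Fin n)) (h : π 0 = 0) : Psi π = autW (permW π) :=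
  Pool.Agent.Helper28.OP.Psi_eq_autW π h

theorem mm_Psi (π : Equiv.Perm (Fin n)) : autW mm * Psi π = Psi π * autW mm :=
  Pool.Agent.Helper28.OP.mm_Psi π

theorem Th_zero : (Th 0 : MulAut (FreeGroup (Fin n))) = autW mm :=
  Pool.Agent.Helper28.OP.Th_zero

theorem Th_one (hn : 2 ≤ n) :
    (Th 1 : MulAut (FreeGroup (Fin n))) = tv (Fin.ofNat n 1, true) cir * autW mm :=
  Pool.Agent.Helper28.OP.Th_one hn

theorem Th_sq (k : ℕ) : (Th k : MulAut (FreeGroup (Fin n))) * Th k = 1 :=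
  Pool.Agent.Helper28.OP.Th_sq k

theorem Th_Psi (k : ℕ) (π : Equiv.Perm (Fin n))
    (h : ∀ j : Fin n, (j ≠ 0 ∧ (j : ℕ) ≤ k) ↔ (π j ≠ 0 ∧ (π j : ℕ) ≤ k)) :
    Th k * Psi π = Psi π * Th k :=
  Pool.Agent.Helper28.OP.Th_Psi k π h

theorem rf_pres (k : ℕ) (hk : k < n) (j : Fin n) :
    (j ≠ 0 ∧ (j : ℕ) ≤ k) ↔ (rf k j ≠ 0 ∧ (rf k j : ℕ) ≤ k) :=
  Pool.Agent.Helper28.OP.rf_pres k hk j

theorem rf_sq (k : ℕ) : (rf k : Equiv.Perm (Fin n)) * rf k = 1 :=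
  Pool.Agent.Helper28.OP.rf_sq k

theorem Fl_eq (k : ℕ) (hk : k < n) :
    (Fl k : MulAut (FreeGroup (Fin n))) = (Fl 1 * Fl 0) ^ k * Fl 0 :=
  Pool.Agent.Helper37.OP.Fl_eq k hk

theorem Fl_pow : ((Fl 1 * Fl 0) ^ n : MulAut (FreeGroup (Fin n))) = MulAut.conj (el cir) :=
  Pool.Agent.Helper37.OP.Fl_pow

theorem Th_one_autW (v : W (Fin n)) (h1 : ap v (Fin.ofNat n 1, true) = (Fin.ofNat n 1, true))
    (h2 : ap v cir = cir) : Th 1 * autW v = autW v * Th 1 :=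
  Pool.Agent.Helper28.OP.Th_one_autW v h1 h2

/-- `θ_1` has a product of order three with `x_1 ↔ a⁻¹` -/
theorem Th_one_cube (hn : 2 ≤ n) :
    ((Th 1 * autW (sw (Fin.ofNat n 1, true) (inv cir))) ^ 3 : MulAut (FreeGroup (Fin n))) = 1 :=
  Pool.Agent.Helper37.OP.Th_one_cube hn

theorem Th_two_cube (hn : 3 ≤ n) :
    ((Th 2 * autW (sw (Fin.ofNat n 1, true) (inv cir))) ^ 3 : MulAut (FreeGroup (Fin n))) = 1 :=
  Pool.Agent.Helper37.OP.Th_two_cube hn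

omit [Fintype ι] in
/-- disjoint transvections -/
theorem tv_disj (x y a b : Ltr ι) (hxy : x ≠ y) (h1 : x.1 ≠ a.1) (h2 : x.1 ≠ b.1)
    (h3 : y.1 ≠ a.1) (h4 : y.1 ≠ b.1) (h5 : a.1 ≠ b.1) :
    (tv x a * autW (sw a (inv a))) * (tv y b * autW (sw b (inv b))) =
      (tv y b * autW (sw b (inv b))) * (tv x a * autW (sw a (inv a))) :=
  Pool.Agent.Helper37.OP.tv_disj x y a b hxy h1 h2 h3 h4 h5

/-- the signed permutation exchanging `a` and `x_{n-1}` and inverting the other generators -/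
theorem exists_last (hn : 3 ≤ n) : ∃ w : W (Fin n), w * w = 1 ∧
    ap w cir = (Fin.ofNat n (n - 1), true) ∧
    (∀ j : Fin n, j ≠ 0 → (j : ℕ) < n - 1 → ap w (j, true) = (j, false)) ∧
    autW w * Th (n - 2) * autW w = Psi (Equiv.swap 0 (Fin.ofNat n (n - 1))) ∧
    Th (n - 2) * Psi (Equiv.swap 0 (Fin.ofNat n (n - 1))) =
      Psi (Equiv.swap 0 (Fin.ofNat n (n - 1))) * Th (n - 2) :=
  Pool.Agent.Helper37.OP.exists_last hn

end Q1

end Pool.Agent.Helper96.OP
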