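import Pool.Agent.Helper96.OP.Defs2

/-!
Relations inside finite subgroups: the interface used in the colimit.
-/

set_option autoImplicit false

namespace Pool.Agent.Helper96.OP

section FinSub

variable {Γ K : Type} [Group Γ] [Group K]

/-- closure of two commuting torsion elements is finite -/
theorem finite_closure_comm (x y : Γ) (a b : ℕ) (ha : 0 < a) (hb : 0 < b) (hx : x ^ a = 1)
    (hy : y ^ b = 1) (hxy : x * y = y * x) : Finite (Subgroup.closure ({x, y} : Set Γ)) := by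
  have hc : Commute x y := hxy
  have hfx : IsOfFinOrder x := isOfFinOrder_iff_pow_eq_one.mpr ⟨a, ha, hx⟩
  have hfy : IsOfFinOrder y := isOfFinOrder_iff_pow_eq_one.mpr ⟨b, hb, hy⟩
  have h1 : (Set.range fun p : Subgroup.zpowers x × Subgroup.zpowers y =>
      (p.1 : Γ) * (p.2 : Γ)).Finite := by
    have : Finite (Subgroup.zpowers x) := hfx.finite_zpowers
    have : Finite (Subgroup.zpowers y) := hfy.finite_zpowers
    exact Set.finite_range _
  refine (h1.subset ?_).to_subtype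
  intro g hg0
  have hg : g ∈ Subgroup.closure ({x, y} : Set Γ) := hg0
  clear hg0
  induction hg using Subgroup.closure_induction with
  | mem z hz =>
    rcases hz with rfl | hz
    · exact ⟨(⟨z, Subgroup.mem_zpowers z⟩, 1), by simp⟩
    · rw [Set.mem_singleton_iff] at hz
      subst hz
      exact ⟨(1, ⟨z, Subgroup.mem_zpowers z⟩), by simp⟩
  | one => exact ⟨(1, 1), by simp⟩
  | mul g g' _ _ hg hg' =>
    obtain ⟨⟨⟨_, ⟨i, rfl⟩⟩, ⟨_, ⟨j, rfl⟩⟩⟩, rfl⟩ := hg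
    obtain ⟨⟨⟨_, ⟨k, rfl⟩⟩, ⟨_, ⟨l, rfl⟩⟩⟩, rfl⟩ := hg'
    refine ⟨(⟨x ^ (i + k), ⟨i + k, rfl⟩⟩, ⟨y ^ (j + l), ⟨j + l, rfl⟩⟩), ?_⟩
    have h2 : y ^ j * x ^ k = x ^ k * y ^ j := ((hc.zpow_zpow k j).eq).symm
    simp only
    calc x ^ (i + k) * y ^ (j + l) = x ^ i * (x ^ k * y ^ j) * y ^ l := by
          rw [zpow_add, zpow_add]; group
      _ = x ^ i * y ^ j * (x ^ k * y ^ l) := by rw [← h2]; group
  | inv g _ hg =>
    obtain ⟨⟨⟨_, ⟨i, rfl⟩⟩, ⟨_, ⟨j, rfl⟩⟩⟩, rfl⟩ := hg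
    refine ⟨(⟨x ^ (-i), ⟨-i, rfl⟩⟩, ⟨y ^ (-j), ⟨-j, rfl⟩⟩), ?_⟩
    simp only
    rw [mul_inv_rev, ← zpow_neg, ← zpow_neg]
    exact (hc.zpow_zpow (-i) (-j)).eq

/-- closure of two involutions whose product is torsion is finite -/
theorem finite_closure_dihedral (x y : Γ) (m : ℕ) (hm : 0 < m) (hx : x * x = 1) (hy : y * y = 1)
    (hxy : (x * y) ^ m = 1) : Finite (Subgroup.closure ({x, y} : Set Γ)) := by
  have hf : IsOfFinOrder (x * y) := isOfFinOrder_iff_pow_eq_one.mpr ⟨m, hm, hxy⟩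
  have h1 : (Set.range fun p : Subgroup.zpowers (x * y) × Bool =>
      (p.1 : Γ) * (if p.2 then x else 1)).Finite := by
    have : Finite (Subgroup.zpowers (x * y)) := hf.finite_zpowers
    exact Set.finite_range _
  have hxi : x⁻¹ = x := inv_eq_of_mul_eq_one_left hx
  have hyi : y⁻¹ = y := inv_eq_of_mul_eq_one_left hy
  have hcx : ∀ i : ℤ, x * (x * y) ^ i = (x * y) ^ (-i) * x := by
    intro i
    have h2 : x * (x * y) * x⁻¹ = (x * y)⁻¹ := by
      rw [mul_inv_rev, hxi, hyi, ← mul_assoc, hx, one_mul]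
    have h3 : x * (x * y) ^ i * x⁻¹ = (x * y) ^ (-i) := by
      rw [← conj_zpow, h2, inv_zpow, zpow_neg]
    rw [← h3]
    group
  refine (h1.subset ?_).to_subtype
  intro g hg0
  have hg : g ∈ Subgroup.closure ({x, y} : Set Γ) := hg0
  clear hg0
  induction hg using Subgroup.closure_induction with
  | mem z hz =>
    rcases hz with rfl | hz
    · exact ⟨(1, true), by simp⟩
    · rw [Set.mem_singleton_iff] at hz
      subst hz
      refine ⟨(⟨(x * z) ^ (-1 : ℤ), ⟨-1, rfl⟩⟩, true), ?_⟩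
      simp only [zpow_neg, zpow_one, mul_inv_rev, hxi, hyi, if_true, mul_assoc, hx, mul_one]
  | one => exact ⟨(1, false), by simp⟩
  | mul g g' _ _ hg hg' =>
    obtain ⟨⟨⟨_, ⟨i, rfl⟩⟩, b⟩, rfl⟩ := hg
    obtain ⟨⟨⟨_, ⟨k, rfl⟩⟩, c⟩, rfl⟩ := hg'
    cases b
    · refine ⟨(⟨(x * y) ^ (i + k), ⟨i + k, rfl⟩⟩, c), ?_⟩
      simp [zpow_add, mul_assoc]
    · refine ⟨(⟨(x * y) ^ (i + -k), ⟨i + -k, rfl⟩⟩, !c), ?_⟩
      have h5 : (x * y) ^ i * x * ((x * y) ^ k * (if c = true then x else 1)) =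
          (x * y) ^ i * (x * (x * y) ^ k) * (if c = true then x else 1) := by group
      show (x * y) ^ (i + -k) * (if (!c) = true then x else 1) =
        (x * y) ^ i * x * ((x * y) ^ k * (if c = true then x else 1))
      rw [h5, hcx, zpow_add]
      cases c
      · simp [mul_assoc]
      · simp [mul_assoc, hx]
  | inv g _ hg =>
    obtain ⟨⟨⟨_, ⟨i, rfl⟩⟩, b⟩, rfl⟩ := hg
    cases b
    · refine ⟨(⟨(x * y) ^ (-i), ⟨-i, rfl⟩⟩, false), ?_⟩
      simp
    · refine ⟨(⟨(x * y) ^ i, ⟨i, rfl⟩⟩, true), ?_⟩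
      simp only [if_true, mul_inv_rev, hxi]
      rw [← zpow_neg, hcx, neg_neg]

variable (X : Set Γ) (κ : Γ → K)

/-- `κ` is compatible with all finite subgroups generated by subsets of `X`. -/
def Good : Prop := ∀ S ⊆ X, Finite (Subgroup.closure S) →
  ∃ f : Subgroup.closure S →* K, ∀ x (hx : x ∈ Subgroup.closure S), x ∈ X → f ⟨x, hx⟩ = κ x

variable {X κ}

/-- a hom from a finite group with values in `X` induces a hom to `K` -/
theorem Good.hom (h : Good X κ) {A : Type} [Group A] [Finite A] (φ : A →* Γ)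
    (hφ : ∀ a, φ a ∈ X) : ∃ ψ : A →* K, ∀ a, ψ a = κ (φ a) := by
  have hcl : Subgroup.closure (Set.range φ) = φ.range := by
    rw [← MonoidHom.coe_range, Subgroup.closure_eq]
  obtain ⟨f, hf⟩ := h (Set.range φ) (by rintro _ ⟨a, rfl⟩; exact hφ a)
    (by rw [hcl]; exact (Set.finite_range φ).to_subtype)
  have hmem : ∀ a, φ a ∈ Subgroup.closure (Set.range φ) := fun a =>
    Subgroup.subset_closure ⟨a, rfl⟩
  refine ⟨f.comp (φ.codRestrict _ hmem), fun a => hf _ _ (hφ a)⟩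

/-- relations in the closure of a pair -/
theorem Good.pair (h : Good X κ) (x y : Γ) (hx : x ∈ X) (hy : y ∈ X)
    (hfin : Finite (Subgroup.closure ({x, y} : Set Γ))) :
    ∃ f : Subgroup.closure ({x, y} : Set Γ) →* K,
      f ⟨x, Subgroup.subset_closure (Or.inl rfl)⟩ = κ x ∧
      f ⟨y, Subgroup.subset_closure (Or.inr rfl)⟩ = κ y ∧
      ∀ z (hz : z ∈ Subgroup.closure ({x, y} : Set Γ)), z ∈ X → f ⟨z, hz⟩ = κ z := by
  obtain ⟨f, hf⟩ := h {x, y} (by rintro z (rfl | hz); exacts [hx, hz ▸ hy]) hfin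
  exact ⟨f, hf _ _ hx, hf _ _ hy, hf⟩

theorem Good.comm (h : Good X κ) (x y : Γ) (hx : x ∈ X) (hy : y ∈ X) (a b : ℕ) (ha : 0 < a)
    (hb : 0 < b) (hxa : x ^ a = 1) (hyb : y ^ b = 1) (hxy : x * y = y * x) :
    κ x * κ y = κ y * κ x := by
  obtain ⟨f, h1, h2, -⟩ := h.pair x y hx hy (finite_closure_comm x y a b ha hb hxa hyb hxy)
  rw [← h1, ← h2, ← map_mul, ← map_mul]
  congr 1
  exact Subtype.ext hxy

theorem Good.comm_mul (h : Good X κ) (x y : Γ) (hx : x ∈ X) (hy : y ∈ X) (hz : x * y ∈ X)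
    (a b : ℕ) (ha : 0 < a)
    (hb : 0 < b) (hxa : x ^ a = 1) (hyb : y ^ b = 1) (hxy : x * y = y * x) :
    κ (x * y) = κ x * κ y := by
  obtain ⟨f, h1, h2, h3⟩ := h.pair x y hx hy (finite_closure_comm x y a b ha hb hxa hyb hxy)
  have hx' : x ∈ Subgroup.closure ({x, y} : Set Γ) := Subgroup.subset_closure (Or.inl rfl)
  have hy' : y ∈ Subgroup.closure ({x, y} : Set Γ) := Subgroup.subset_closure (Or.inr rfl)
  rw [← h3 (x * y) (mul_mem hx' hy') hz, ← h1, ← h2, ← map_mul]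
  rfl

theorem Good.sq (h : Good X κ) (x : Γ) (hx : x ∈ X) (hxa : x * x = 1) : κ x * κ x = 1 := by
  obtain ⟨f, h1, -, -⟩ := h.pair x x hx hx (finite_closure_comm x x 2 2 (by norm_num)
    (by norm_num) (by rw [pow_two, hxa]) (by rw [pow_two, hxa]) rfl)
  rw [← h1, ← map_mul]
  have : (⟨x, Subgroup.subset_closure (Or.inl rfl)⟩ : Subgroup.closure ({x, x} : Set Γ)) *
      ⟨x, Subgroup.subset_closure (Or.inl rfl)⟩ = 1 := Subtype.ext hxa
  rw [this, map_one]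

theorem Good.dihedral (h : Good X κ) (x y : Γ) (hx : x ∈ X) (hy : y ∈ X) (m : ℕ) (hm : 0 < m)
    (hxx : x * x = 1) (hyy : y * y = 1) (hxy : (x * y) ^ m = 1) :
    ∃ f : Subgroup.closure ({x, y} : Set Γ) →* K,
      f ⟨x, Subgroup.subset_closure (Or.inl rfl)⟩ = κ x ∧
      f ⟨y, Subgroup.subset_closure (Or.inr rfl)⟩ = κ y ∧
      (∀ z (hz : z ∈ Subgroup.closure ({x, y} : Set Γ)), z ∈ X → f ⟨z, hz⟩ = κ z) ∧
      (κ x * κ y) ^ m = 1 := by
  obtain ⟨f, h1, h2, h3⟩ := h.pair x y hx hy (finite_closure_dihedral x y m hm hxx hyy hxy)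
  refine ⟨f, h1, h2, h3, ?_⟩
  rw [← h1, ← h2, ← map_mul, ← map_pow]
  have : ((⟨x, Subgroup.subset_closure (Or.inl rfl)⟩ : Subgroup.closure ({x, y} : Set Γ)) *
      ⟨y, Subgroup.subset_closure (Or.inr rfl)⟩) ^ m = 1 := Subtype.ext hxy
  rw [this, map_one]

end FinSub

end Pool.Agent.Helper96.OP
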