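import Mathlib

/-!
# Finite pushouts of finite groups: the definitions used in the statement for `Out(F_n)`
-/

set_option autoImplicit false

namespace Pool.Agent.Helper96.OutPush

/-- Inner automorphisms form a normal subgroup of the automorphism group. -/
theorem inner_normal (G : Type) [Group G] : (MulAut.conj (G := G)).range.Normal where
  conj_mem := by
    rintro _ ⟨g, rfl⟩ α
    refine ⟨α g, ?_⟩
    ext x
    simp [MulAut.conj_apply]

/-- The outer automorphism group `Out(F_n) = Aut(F_n) / Inn(F_n)`. -/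
def OutF (n : ℕ) : Type :=
  MulAut (FreeGroup (Fin n)) ⧸ (MulAut.conj (G := FreeGroup (Fin n))).range

instance OutF.group (n : ℕ) : Group (OutF n) :=
  @QuotientGroup.Quotient.group _ _ (MulAut.conj (G := FreeGroup (Fin n))).range (inner_normal _)

/-- A simple complex of groups over a poset `Q`: a group `G σ` for every `σ`, an injective
homomorphism `ψ : G σ → G τ` for every pair `τ < σ`, and `ψ_{ρτ} ∘ ψ_{τσ} = ψ_{ρσ}` whenever
`ρ < τ < σ`. -/
structure SimpleComplex (Q : Type) [PartialOrder Q] where
  G : Q → Type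
  [grp : ∀ σ, Group (G σ)]
  ψ : ∀ σ τ, τ < σ → (G σ →* G τ)
  injective : ∀ σ τ (h : τ < σ), Function.Injective (ψ σ τ h)
  comp : ∀ σ τ ρ (h : τ < σ) (h' : ρ < τ), (ψ τ ρ h').comp (ψ σ τ h) = ψ σ ρ (h'.trans h)

attribute [instance] SimpleComplex.grp

/-- The group `Γ` with the homomorphisms `ι σ : G σ → Γ` is the colimit of the groups of the
simple complex of groups `C`: the `ι σ` are compatible with the maps `ψ`, and every compatible
family of homomorphisms to a group `K` factors uniquely through `Γ`. -/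
def IsColimit {Q : Type} [PartialOrder Q] (C : SimpleComplex Q) (Γ : Type) [Group Γ]
    (ι : ∀ σ, C.G σ →* Γ) : Prop :=
  (∀ σ τ (h : τ < σ) g, ι τ (C.ψ σ τ h g) = ι σ g) ∧
  ∀ (K : Type) [Group K] (f : ∀ σ, C.G σ →* K),
    (∀ σ τ (h : τ < σ) g, f τ (C.ψ σ τ h g) = f σ g) →
      ∃! Φ : Γ →* K, ∀ σ g, Φ (ι σ g) = f σ g

/-- The geometric realisation of (the order complex of) a finite poset `Q`: the formal convex
combinations of elements of `Q` whose support is a chain. -/
def realisation (Q : Type) [PartialOrder Q] [Fintype Q] : Set (Q → ℝ) :=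
  {f | (∀ q, 0 ≤ f q) ∧ ∑ q, f q = 1 ∧ ∀ p q, f p ≠ 0 → f q ≠ 0 → p ≤ q ∨ q ≤ p}

/-- `Γ` is a pushout of finitely many of its finite subgroups: it is the colimit of a developable
simple complex of finite groups over a finite poset whose realisation is simply connected. -/
def IsFinitePushout (Γ : Type) [Group Γ] : Prop :=
  ∃ (Q : Type) (_ : PartialOrder Q) (_ : Fintype Q) (C : SimpleComplex Q)
    (ι : ∀ σ, C.G σ →* Γ), (∀ σ, Finite (C.G σ)) ∧ SimplyConnectedSpace (realisation Q) ∧
    IsColimit C Γ ι ∧ ∀ σ, Function.Injective (ι σ)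

end Pool.Agent.Helper96.OutPush
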