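import Pool.Agent.Helper96.OP.Fin
import Pool.Agent.Helper96.OP.Facts

/-!
Extraction of the relations from the finite subgroups.
-/

set_option autoImplicit false

namespace Pool.Agent.Helper96.OP

/-- the letter `x_1` -/
def x1 {n : ℕ} [NeZero n] : Ltr (Fin n) := (Fin.ofNat n 1, true)

/-- The relations in `K` that come from finite subgroups. -/
structure LD (n : ℕ) [NeZero n] (K : Type) [Group K] where
  ρ : W (Fin n) →* K
  lam : Equiv.Perm (Fin n) →* K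
  th : ℕ → K
  th0 : th 0 = ρ mm
  lam_eq : ∀ π, π 0 = 0 → lam π = ρ (permW π)
  mm_lam : ∀ π, ρ mm * lam π = lam π * ρ mm
  th_lam : ∀ k < n, ∀ π : Equiv.Perm (Fin n),
    (∀ j : Fin n, (j ≠ 0 ∧ (j : ℕ) ≤ k) ↔ (π j ≠ 0 ∧ (π j : ℕ) ≤ k)) →
      th k * lam π = lam π * th k
  th_sq : ∀ k < n, th k * th k = 1
  th_rho : ∀ v, ap v x1 = x1 → ap v cir = cir → th 1 * ρ v = ρ v * th 1
  fl : ∀ k < n, th k * lam (rf k) =
    ((th 1 * lam (rf 1)) * (th 0 * lam (rf 0))) ^ k * (th 0 * lam (rf 0))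
  fl_pow : ((th 1 * lam (rf 1)) * (th 0 * lam (rf 0))) ^ n = 1
  cube1 : (th 1 * ρ (sw x1 (inv cir))) ^ 3 = 1
  cube2 : (th 2 * ρ (sw x1 (inv cir))) ^ 3 = 1
  disj : ∀ v : W (Fin n), v * v = 1 → ap v x1 ≠ x1 → (ap v x1).1 ≠ cir.1 →
    (ap v cir).1 ≠ x1.1 → (ap v x1).1 ≠ (ap v cir).1 → (ap v cir).1 ≠ cir.1 →
      th 1 * (ρ v * th 1 * ρ v) = (ρ v * th 1 * ρ v) * th 1
  last : ∀ w : W (Fin n), w * w = 1 →
    autW w * Th (n - 2) * autW w = Psi (Equiv.swap 0 (Fin.ofNat n (n - 1))) →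
    Th (n - 2) * Psi (Equiv.swap 0 (Fin.ofNat n (n - 1))) =
      Psi (Equiv.swap 0 (Fin.ofNat n (n - 1))) * Th (n - 2) →
    ρ w * th (n - 2) * ρ w = lam (Equiv.swap 0 (Fin.ofNat n (n - 1)))

section

variable {n : ℕ} [NeZero n] {K : Type} [Group K]

lemma autW_mem (v : W (Fin n)) : pr n (autW v) ∈ X n := ⟨_, Or.inl (Or.inl ⟨v, rfl⟩), rfl⟩

lemma Psi_mem (π : Equiv.Perm (Fin n)) : pr n (Psi π) ∈ X n := ⟨_, Or.inl (Or.inr ⟨π, rfl⟩), rfl⟩

lemma Th_mem (k : ℕ) (hk : k < n) : pr n (Th k) ∈ X n := ⟨_, Or.inr ⟨k, hk, Or.inl rfl⟩, rfl⟩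

lemma Fl_mem (k : ℕ) (hk : k < n) : pr n (Fl k) ∈ X n := ⟨_, Or.inr ⟨k, hk, Or.inr rfl⟩, rfl⟩

lemma conj_sw (v : W (Fin n)) (x y : Ltr (Fin n)) :
    v * sw x y * v⁻¹ = sw (ap v x) (ap v y) := by
  apply W_ext
  intro z
  rw [ap_mul, ap_mul, sw_app, sw_app]
  have h : ∀ t, (ap v⁻¹ z = t) ↔ (z = ap v t) := fun t =>
    ⟨fun h => by rw [← h, ap_ap_inv], fun h => by rw [h, ap_inv_ap]⟩
  simp only [swFun, h, ← ap_inv]
  split_ifs <;> simp

lemma aux4 {G : Type} [Group G] {x y : G} (hx : x * x = 1) (hy : y * y = 1)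
    (h : x * (y * x * y) = (y * x * y) * x) : (x * y) ^ 4 = 1 := by
  calc (x * y) ^ 4 = (x * (y * x * y)) * (x * (y * x * y)) := by
        simp only [pow_succ, pow_zero, one_mul, mul_assoc]
    _ = x * ((y * x * y) * x) * (y * x * y) := by group
    _ = x * x * (y * x * (y * y) * x * y) := by rw [← h]; group
    _ = 1 := by rw [hy, mul_one, hx, one_mul, mul_assoc y, hx, mul_one, hy]

lemma aux4' {G : Type} [Group G] {x y : G} (hx : x * x = 1) (hy : y * y = 1)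
    (h : (x * y) ^ 4 = 1) : x * (y * x * y) = (y * x * y) * x := by
  have hxi : x⁻¹ = x := inv_eq_of_mul_eq_one_left hx
  have hyi : y⁻¹ = y := inv_eq_of_mul_eq_one_left hy
  have h1 : (x * y * x * y) * (x * y * x * y) = 1 := by
    rw [← h]
    simp only [pow_succ, pow_zero, one_mul, mul_assoc]
  have h2 : x * y * x * y = (x * y * x * y)⁻¹ := eq_inv_of_mul_eq_one_left h1
  calc x * (y * x * y) = x * y * x * y := by group
    _ = (x * y * x * y)⁻¹ := h2
    _ = y⁻¹ * x⁻¹ * y⁻¹ * x⁻¹ := by group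
    _ = (y * x * y) * x := by rw [hxi, hyi]

lemma pow_card_eq {A : Type} [Group A] [Finite A] (a : A) : ∃ m, 0 < m ∧ a ^ m = 1 :=
  ⟨Nat.card A, Nat.card_pos, pow_card_eq_one'⟩

lemma Fl_sq (k : ℕ) (hk : k < n) : (Fl k : MulAut (FreeGroup (Fin n))) * Fl k = 1 := by
  have h1 := Th_Psi k (rf k) (rf_pres k hk)
  calc (Fl k : MulAut (FreeGroup (Fin n))) * Fl k
      = Th k * (Psi (rf k) * Th k) * Psi (rf k) := by rw [Fl]; group
    _ = (Th k * Th k) * Psi (rf k * rf k) := by rw [← h1, map_mul]; group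
    _ = 1 := by rw [Th_sq, rf_sq, map_one, one_mul]

theorem exists_LD (hn : 3 ≤ n) (κ : Out n → K) (hκ : Good (X n) κ) :
    ∃ D : LD n K, (∀ v, D.ρ v = κ (pr n (autW v))) ∧ (∀ π, D.lam π = κ (pr n (Psi π))) ∧
      (∀ k, D.th k = κ (pr n (Th k))) ∧
      (∀ k < n, D.th k * D.lam (rf k) = κ (pr n (Fl k))) := by
  have h0n : 0 < n := by omega
  have h1n : 1 < n := by omega
  obtain ⟨ρ, hρ⟩ := hκ.hom ((pr n).comp autW) autW_mem
  obtain ⟨lam, hlam⟩ := hκ.hom ((pr n).comp Psi) Psi_mem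
  simp only [MonoidHom.comp_apply] at hρ hlam
  have hpow : ∀ v : W (Fin n), ∃ m, 0 < m ∧ (pr n (autW v)) ^ m = 1 := fun v => by
    obtain ⟨m, hm, h⟩ := pow_card_eq v
    exact ⟨m, hm, by rw [← map_pow, ← map_pow, h, map_one, map_one]⟩
  have hpow' : ∀ π : Equiv.Perm (Fin n), ∃ m, 0 < m ∧ (pr n (Psi π)) ^ m = 1 := fun π => by
    obtain ⟨m, hm, h⟩ := pow_card_eq π
    exact ⟨m, hm, by rw [← map_pow, ← map_pow, h, map_one, map_one]⟩
  have hThsq : ∀ k : ℕ, pr n (Th k) * pr n (Th k) = 1 := fun k => by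
    rw [← map_mul, Th_sq, map_one]
  have hThsq' : ∀ k : ℕ, (pr n (Th k)) ^ 2 = 1 := fun k => by rw [pow_two, hThsq]
  have hFlsq : ∀ k < n, pr n (Fl k) * pr n (Fl k) = 1 := fun k hk => by
    rw [← map_mul, Fl_sq k hk, map_one]
  have hfl : ∀ k < n, κ (pr n (Fl k)) = κ (pr n (Th k)) * lam (rf k) := by
    intro k hk
    obtain ⟨m, hm, hm'⟩ := hpow' (rf k)
    rw [hlam, ← hκ.comm_mul (pr n (Th k)) (pr n (Psi (rf k))) (Th_mem k hk) (Psi_mem _)
      (by rw [← map_mul]; exact Fl_mem k hk) 2 m (by norm_num) hm (hThsq' k) hm'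
      (by rw [← map_mul, ← map_mul, Th_Psi k (rf k) (rf_pres k hk)]), ← map_mul]
    rfl
  have hth0 : κ (pr n (Th 0)) = ρ mm := by rw [Th_zero, hρ]
  -- the dihedral group of the wheel
  have hpown : (pr n (Fl 1) * pr n (Fl 0)) ^ n = 1 := by
    rw [← map_mul, ← map_pow, Fl_pow]
    exact (QuotientGroup.eq_one_iff _).mpr ⟨_, rfl⟩
  obtain ⟨f, hf1, hf0, hf, hfn⟩ := hκ.dihedral (pr n (Fl 1)) (pr n (Fl 0)) (Fl_mem 1 h1n)
    (Fl_mem 0 h0n) n h0n (hFlsq 1 h1n) (hFlsq 0 h0n) hpown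
  have hmem1 : pr n (Fl 1) ∈ Subgroup.closure ({pr n (Fl 1), pr n (Fl 0)} : Set (Out n)) :=
    Subgroup.subset_closure (Or.inl rfl)
  have hmem0 : pr n (Fl 0) ∈ Subgroup.closure ({pr n (Fl 1), pr n (Fl 0)} : Set (Out n)) :=
    Subgroup.subset_closure (Or.inr rfl)
  have hflk : ∀ k < n, κ (pr n (Fl k)) =
      (κ (pr n (Fl 1)) * κ (pr n (Fl 0))) ^ k * κ (pr n (Fl 0)) := by
    intro k hk
    have h1 : pr n (Fl k) = (pr n (Fl 1) * pr n (Fl 0)) ^ k * pr n (Fl 0) := by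
      rw [Fl_eq k hk, map_mul, map_pow, map_mul]
    have hmem : pr n (Fl k) ∈ Subgroup.closure ({pr n (Fl 1), pr n (Fl 0)} : Set (Out n)) := by
      rw [h1]
      exact mul_mem (pow_mem (mul_mem hmem1 hmem0) _) hmem0
    rw [← hf _ hmem (Fl_mem k hk), ← hf1, ← hf0, ← map_mul, ← map_pow, ← map_mul]
    congr 1
    exact Subtype.ext h1
  refine ⟨
    { ρ := ρ
      lam := lam
      th := fun k => κ (pr n (Th k))
      th0 := hth0
      lam_eq := fun π hπ => by rw [hlam, hρ, Psi_eq_autW π hπ]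
      mm_lam := fun π => ?_
      th_lam := fun k hk π hπ => ?_
      th_sq := fun k hk => hκ.sq _ (Th_mem k hk) (hThsq k)
      th_rho := fun v h1 h2 => ?_
      fl := fun k hk => ?_
      fl_pow := ?_
      cube1 := ?_
      cube2 := ?_
      disj := fun v hv h1 h2 h3 h4 h5 => ?_
      last := fun w hw h1 h2 => ?_ }, hρ, hlam, fun k => rfl, fun k hk => (hfl k hk).symm⟩
  · obtain ⟨a, ha, ha'⟩ := hpow mm
    obtain ⟨b, hb, hb'⟩ := hpow' π
    rw [hρ, hlam]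
    exact hκ.comm _ _ (autW_mem _) (Psi_mem _) a b ha hb ha' hb'
      (by rw [← map_mul, ← map_mul, mm_Psi])
  · obtain ⟨b, hb, hb'⟩ := hpow' π
    rw [hlam]
    exact hκ.comm _ _ (Th_mem k hk) (Psi_mem _) 2 b (by norm_num) hb (hThsq' k) hb'
      (by rw [← map_mul, ← map_mul, Th_Psi k π hπ])
  · obtain ⟨b, hb, hb'⟩ := hpow v
    rw [hρ]
    exact hκ.comm _ _ (Th_mem 1 h1n) (autW_mem _) 2 b (by norm_num) hb (hThsq' 1) hb'
      (by rw [← map_mul, ← map_mul, Th_one_autW v h1 h2])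
  · rw [← hfl k hk, ← hfl 1 h1n, ← hfl 0 h0n, hflk k hk]
  · rw [← hfl 1 h1n, ← hfl 0 h0n, hfn]
  · have hsw : pr n (autW (sw x1 (inv cir))) * pr n (autW (sw x1 (inv cir))) = 1 := by
      rw [← map_mul, ← map_mul, sw_mul_self, map_one, map_one]
    obtain ⟨-, -, -, -, h⟩ := hκ.dihedral (pr n (Th 1)) (pr n (autW (sw x1 (inv cir))))
      (Th_mem 1 h1n) (autW_mem _) 3 (by norm_num) (hThsq 1) hsw
      (by rw [← map_mul, ← map_pow]; erw [Th_one_cube (by omega)]; rw [map_one])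
    rw [hρ]
    exact h
  · have hsw : pr n (autW (sw x1 (inv cir))) * pr n (autW (sw x1 (inv cir))) = 1 := by
      rw [← map_mul, ← map_mul, sw_mul_self, map_one, map_one]
    obtain ⟨-, -, -, -, h⟩ := hκ.dihedral (pr n (Th 2)) (pr n (autW (sw x1 (inv cir))))
      (Th_mem 2 (by omega)) (autW_mem _) 3 (by norm_num) (hThsq 2) hsw
      (by rw [← map_mul, ← map_pow]; erw [Th_two_cube (by omega)]; rw [map_one])
    rw [hρ]
    exact h
  · -- disjoint
    have hvv : pr n (autW v) * pr n (autW v) = 1 := by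
      rw [← map_mul, ← map_mul, hv, map_one, map_one]
    have hvi : v⁻¹ = v := inv_eq_of_mul_eq_one_left hv
    have hconj : (autW v * Th 1 * autW v : MulAut (FreeGroup (Fin n))) =
        tv (ap v x1) (ap v cir) * autW (sw (ap v cir) (inv (ap v cir))) := by
      obtain ⟨𝔤, h𝔤1, h𝔤2⟩ := exists_gerstenAut (ι := Fin n)
      have h6 := 𝔤.E_act v x1 cir
      rw [h𝔤1, h𝔤2] at h6
      have h7 : autW v * autW mm * (autW v)⁻¹ =
          autW (sw (ap v cir) (inv (ap v cir))) := by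
        rw [← map_inv, ← map_mul, ← map_mul, mm, conj_sw, ap_inv]
      rw [← h6, ← h7, Th_one (by omega)]
      have h8 : (autW v)⁻¹ = autW v := by rw [← map_inv, hvi]
      calc autW v * (tv (Fin.ofNat n 1, true) cir * autW mm) * autW v
          = autW v * tv x1 cir * ((autW v)⁻¹ * autW v) * autW mm * (autW v)⁻¹ := by
            rw [inv_mul_cancel, h8, x1]; group
        _ = _ := by group
    have hx1 : (x1 : Ltr (Fin n)).1 ≠ (cir : Ltr (Fin n)).1 := by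
      intro h
      have := congrArg Fin.val h
      simp [x1, cir, Nat.mod_eq_of_lt h1n] at this
    have hc : (Th 1 : MulAut (FreeGroup (Fin n))) * (autW v * Th 1 * autW v) =
        (autW v * Th 1 * autW v) * Th 1 := by
      rw [hconj, Th_one (by omega)]
      exact tv_disj x1 (ap v x1) cir (ap v cir) h1.symm hx1 h3.symm h2 h4 h5.symm
    have h4 : (pr n (Th 1) * pr n (autW v)) ^ 4 = 1 := by
      rw [← map_mul, ← map_pow, aux4 (Th_sq 1) (by rw [← map_mul, hv, map_one]) hc, map_one]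
    obtain ⟨-, -, -, -, h⟩ := hκ.dihedral (pr n (Th 1)) (pr n (autW v)) (Th_mem 1 h1n)
      (autW_mem _) 4 (by norm_num) (hThsq 1) hvv h4
    rw [hρ]
    exact aux4' (hκ.sq _ (Th_mem 1 h1n) (hThsq 1)) (hκ.sq _ (autW_mem v) hvv) h
  · have hww : pr n (autW w) * pr n (autW w) = 1 := by
      rw [← map_mul, ← map_mul, hw, map_one, map_one]
    have h4 : (pr n (Th (n - 2)) * pr n (autW w)) ^ 4 = 1 := by
      rw [← map_mul, ← map_pow, aux4 (Th_sq (n - 2)) (by rw [← map_mul, hw, map_one])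
        (by rw [h1, h2]), map_one]
    obtain ⟨g, hg1, hg2, hg3, -⟩ := hκ.dihedral (pr n (Th (n - 2))) (pr n (autW w))
      (Th_mem (n - 2) (by omega)) (autW_mem _) 4 (by norm_num) (hThsq _) hww h4
    have h5 : pr n (Psi (Equiv.swap 0 (Fin.ofNat n (n - 1)))) =
        pr n (autW w) * pr n (Th (n - 2)) * pr n (autW w) := by
      rw [← h1, map_mul, map_mul]
    have hmemT : pr n (Th (n - 2)) ∈
        Subgroup.closure ({pr n (Th (n - 2)), pr n (autW w)} : Set (Out n)) :=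
      Subgroup.subset_closure (Or.inl rfl)
    have hmemW : pr n (autW w) ∈
        Subgroup.closure ({pr n (Th (n - 2)), pr n (autW w)} : Set (Out n)) :=
      Subgroup.subset_closure (Or.inr rfl)
    have hmem : pr n (Psi (Equiv.swap 0 (Fin.ofNat n (n - 1)))) ∈
        Subgroup.closure ({pr n (Th (n - 2)), pr n (autW w)} : Set (Out n)) := by
      rw [h5]
      exact mul_mem (mul_mem hmemW hmemT) hmemW
    rw [hρ, hlam, ← hg3 _ hmem (Psi_mem _), ← hg1, ← hg2, ← map_mul, ← map_mul]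
    congr 1
    exact Subtype.ext h5.symm

end

end Pool.Agent.Helper96.OP
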