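import Pool.Agent.Helper96.OP.Q2a

/-!
Gersten's relations from the relations in finite subgroups.
-/

set_option autoImplicit false

namespace Pool.Agent.Helper96.OP

section Wlemmas

variable {n : ℕ}

lemma sw_left (x y : Ltr (Fin n)) : ap (sw x y) x = y := by simp [sw_app, swFun]

lemma sw_right (x y : Ltr (Fin n)) : ap (sw x y) y = x := by
  have h := sw_left x y
  have h2 := congrArg (ap (sw x y)) h
  rw [← ap_mul, sw_mul_self, ap_one] at h2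
  exact h2.symm

lemma sw_fix (x y z : Ltr (Fin n)) (h1 : z.1 ≠ x.1) (h2 : z.1 ≠ y.1) : ap (sw x y) z = z := by
  rw [sw_app, swFun, if_neg (fun h => h1 (by rw [h])), if_neg (fun h => h2 (by rw [h])),
    if_neg (fun h => h1 (by rw [h]; rfl)), if_neg (fun h => h2 (by rw [h]; rfl))]

lemma sw_comm (x y : Ltr (Fin n)) : sw x y = sw y x := by
  apply W_ext
  intro z
  obtain ⟨i, b⟩ := x
  obtain ⟨j, c⟩ := y
  obtain ⟨k, d⟩ := z
  by_cases h1 : k = i <;> by_cases h2 : k = j <;> by_cases h3 : i = j <;>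
    cases b <;> cases c <;> cases d <;> simp_all [sw_app, swFun, inv]

lemma sw_inv_inv (x y : Ltr (Fin n)) : sw (inv x) (inv y) = sw x y := by
  apply W_ext
  intro z
  obtain ⟨i, b⟩ := x
  obtain ⟨j, c⟩ := y
  obtain ⟨k, d⟩ := z
  by_cases h1 : k = i <;> by_cases h2 : k = j <;> by_cases h3 : i = j <;>
    cases b <;> cases c <;> cases d <;> simp_all [sw_app, swFun, inv]

lemma sw_inv_eq (x y : Ltr (Fin n)) : (sw x y)⁻¹ = sw x y :=
  inv_eq_of_mul_eq_one_left (sw_mul_self x y)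

lemma conj_sw' (v : W (Fin n)) (x y : Ltr (Fin n)) :
    v * sw x y * v⁻¹ = sw (ap v x) (ap v y) := by
  apply W_ext
  intro z
  rw [ap_mul, ap_mul, sw_app, sw_app]
  have h : ∀ t, (ap v⁻¹ z = t) ↔ (z = ap v t) := fun t =>
    ⟨fun h => by rw [← h, ap_ap_inv], fun h => by rw [h, ap_inv_ap]⟩
  simp only [swFun, h, ← ap_inv]
  split_ifs <;> simp

lemma sw_disj (x y a b : Ltr (Fin n)) (h1 : a.1 ≠ x.1) (h2 : a.1 ≠ y.1) (h3 : b.1 ≠ x.1)
    (h4 : b.1 ≠ y.1) : sw x y * sw a b = sw a b * sw x y := by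
  have h := conj_sw' (sw x y) a b
  rw [sw_fix x y a h1 h2, sw_fix x y b h3 h4, mul_inv_eq_iff_eq_mul] at h
  exact h

lemma ap_fst (w : W (Fin n)) {x y : Ltr (Fin n)} (h : x.1 = y.1) : (ap w x).1 = (ap w y).1 := by
  rcases eq_or_eq_inv h with h | h
  · rw [h]
  · rw [h, ap_inv]
    rfl

lemma ap_fst_ne (w : W (Fin n)) {x y : Ltr (Fin n)} (h : x.1 ≠ y.1) :
    (ap w x).1 ≠ (ap w y).1 := fun h' => h (by
  have := ap_fst w⁻¹ h'
  simpa using this)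

variable [NeZero n]

lemma x1_ne (hn : 3 ≤ n) : (x1 : Ltr (Fin n)).1 ≠ (cir : Ltr (Fin n)).1 := by
  intro h
  have := congrArg Fin.val h
  simp [x1, cir, Nat.mod_eq_of_lt (show 1 < n by omega)] at this

/-- the letter `x_2` -/
def x2 {n : ℕ} [NeZero n] : Ltr (Fin n) := (Fin.ofNat n 2, true)

lemma x2_ne (hn : 3 ≤ n) : (x2 : Ltr (Fin n)).1 ≠ (cir : Ltr (Fin n)).1 := by
  intro h
  have := congrArg Fin.val h
  simp [x2, cir, Nat.mod_eq_of_lt (show 2 < n by omega)] at this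

lemma x12_ne (hn : 3 ≤ n) : (x2 : Ltr (Fin n)).1 ≠ (x1 : Ltr (Fin n)).1 := by
  intro h
  have := congrArg Fin.val h
  simp [x2, x1, Nat.mod_eq_of_lt (show 2 < n by omega),
    Nat.mod_eq_of_lt (show 1 < n by omega)] at this

lemma wExists (hn : 3 ≤ n) (x a : Ltr (Fin n)) (h : x.1 ≠ a.1) :
    ∃ w : W (Fin n), ap w x1 = x ∧ ap w cir = a := by
  have h1 : (ap (sw x1 x) cir).1 ≠ x.1 := by
    have := ap_fst_ne (sw x1 x) (x1_ne hn).symm
    rwa [sw_left] at this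
  refine ⟨sw (ap (sw x1 x) cir) a * sw x1 x, ?_, ?_⟩
  · rw [ap_mul, sw_left, sw_fix _ _ _ h1.symm h]
  · rw [ap_mul, sw_left]

lemma wExists3 (hn : 3 ≤ n) (x y a : Ltr (Fin n)) (h : x.1 ≠ a.1) (h' : y.1 ≠ a.1)
    (hxy : x.1 ≠ y.1) : ∃ w : W (Fin n), ap w x1 = x ∧ ap w x2 = y ∧ ap w cir = a := by
  obtain ⟨w, h1, h2⟩ := wExists hn x a h
  have h3 : (ap w x2).1 ≠ x.1 := by
    rw [← h1]
    exact ap_fst_ne w (x12_ne hn)
  have h4 : (ap w x2).1 ≠ a.1 := by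
    rw [← h2]
    exact ap_fst_ne w (x2_ne hn)
  refine ⟨sw (ap w x2) y * w, ?_, ?_, ?_⟩
  · rw [ap_mul, h1, sw_fix _ _ _ h3.symm hxy]
  · rw [ap_mul, sw_left]
  · rw [ap_mul, h2, sw_fix _ _ _ h4.symm h'.symm]

end Wlemmas

section grp
variable {G : Type} [Group G]

lemma conj_of_cubes {p q r m σ η : G} (hη : η = p * m) (hηη : η * η = 1) (hm : m * m = 1)
    (hσ : σ * σ = 1) (hpq : p * q = q * p) (hmq : m * q * m = q⁻¹) (hmr : m * r * m = r)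
    (hσq : σ * q * σ = r⁻¹) (h1 : (η * σ) ^ 3 = 1) (h2 : (q * η * σ) ^ 3 = 1) :
    p * r * p⁻¹ = r * q := by
  have hmi : m⁻¹ = m := inv_eq_of_mul_eq_one_left hm
  have hσi : σ⁻¹ = σ := inv_eq_of_mul_eq_one_left hσ
  have hηi : η⁻¹ = η := inv_eq_of_mul_eq_one_left hηη
  have hηq : η * q * η⁻¹ = q⁻¹ := by
    calc η * q * η⁻¹ = p * (m * q * m⁻¹) * p⁻¹ := by rw [hη]; group
      _ = p * q⁻¹ * p⁻¹ := by rw [hmi, hmq]
      _ = (p * q * p⁻¹)⁻¹ := by group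
      _ = q⁻¹ := by rw [hpq]; group
  obtain ⟨u, hu⟩ : ∃ u, u = η * σ := ⟨_, rfl⟩
  have hu3 : u * u * u = 1 := by rw [hu, ← h1]; simp only [pow_succ, pow_zero, one_mul, mul_assoc]
  have huu : u * u = u⁻¹ := eq_inv_of_mul_eq_one_left hu3
  have hA : u * q * u⁻¹ = η * r⁻¹ * η⁻¹ := by
    rw [← hσq, hu, mul_inv_rev, hσi]
    group
  have hB : u⁻¹ * q * u = r := by
    calc u⁻¹ * q * u = σ⁻¹ * (η⁻¹ * q * η) * σ := by rw [hu]; group
      _ = σ * (η * q * η⁻¹) * σ := by rw [hσi, hηi]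
      _ = (σ⁻¹ * q * σ⁻¹)⁻¹ := by rw [hηq]; group
      _ = r := by rw [hσi, hσq, _root_.inv_inv]
  have h3 : q * (u * q * u⁻¹) * (u⁻¹ * q * u) = 1 := by
    calc q * (u * q * u⁻¹) * (u⁻¹ * q * u)
        = q * (u * q * u⁻¹) * ((u * u) * q * (u * u)⁻¹) := by rw [huu]; group
      _ = (q * u * (q * u) * (q * u)) * (u * u * u)⁻¹ := by group
      _ = 1 := by
        rw [hu3, inv_one, mul_one, hu, ← h2]
        simp only [pow_succ, pow_zero, one_mul, mul_assoc]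
  rw [hA, hB] at h3
  have h4 : η * r * η⁻¹ = r * q := by
    have h5 : η * r⁻¹ * η⁻¹ = q⁻¹ * r⁻¹ := by
      rw [eq_inv_mul_iff_mul_eq, eq_inv_iff_mul_eq_one]
      exact h3
    have h6 : (η * r⁻¹ * η⁻¹)⁻¹ = (q⁻¹ * r⁻¹)⁻¹ := by rw [h5]
    calc η * r * η⁻¹ = (η * r⁻¹ * η⁻¹)⁻¹ := by group
      _ = (q⁻¹ * r⁻¹)⁻¹ := h6
      _ = r * q := by group
  rw [← h4, hη, mul_inv_rev]
  calc p * r * p⁻¹ = p * (m * r * m) * p⁻¹ := by rw [hmr]
    _ = _ := by rw [hmi]; group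

lemma rank_of_cube {p s p' e m σ ι η : G} (hη : η = p * m) (hm : m * m = 1)
    (hηη : η * η = 1) (hι : ι * ι = 1)
    (hσ : σ * σ = 1) (h1 : (η * σ) ^ 3 = 1) (hσp : σ * p * σ = e⁻¹) (hσm : σ * m * σ = ι)
    (hme : m * e * m = s) (hιp : ι * p * ι = p') (hmp : m * p' * m = p'⁻¹)
    (hmι : m * ι = ι * m) :
    p * s⁻¹ * p'⁻¹ = σ * ι := by
  have hmi : m⁻¹ = m := inv_eq_of_mul_eq_one_left hm
  have hσi : σ⁻¹ = σ := inv_eq_of_mul_eq_one_left hσ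
  have hηi : η⁻¹ = η := inv_eq_of_mul_eq_one_left hηη
  have hιi : ι⁻¹ = ι := inv_eq_of_mul_eq_one_left hι
  have h2 : η * (σ * η * σ) * η = σ := by
    have : (η * σ * η * σ * η) * σ = 1 := by
      rw [← h1]; simp only [pow_succ, pow_zero, one_mul, mul_assoc]
    rw [mul_eq_one_iff_eq_inv, hσi] at this
    calc η * (σ * η * σ) * η = η * σ * η * σ * η := by group
      _ = σ := this
  have h3 : σ * η * σ = e⁻¹ * ι := by
    calc σ * η * σ = (σ * p * σ⁻¹) * (σ * m * σ) := by rw [hη]; group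
      _ = e⁻¹ * ι := by rw [hσi, hσp, hσm]
  rw [h3, hη] at h2
  have h4 : m * e⁻¹ = s⁻¹ * m := by
    have : s = m * e * m⁻¹ := by rw [hmi, hme]
    rw [this]
    group
  have h5 : ι * p = p' * ι := by
    rw [← hιp, mul_assoc (ι * p), hι, mul_one]
  have h6 : m * p' = p'⁻¹ * m := by
    rw [← hmp, mul_assoc (m * p'), hm, mul_one]
  calc p * s⁻¹ * p'⁻¹ = p * s⁻¹ * p'⁻¹ * (m * (ι * m)) * ι := by
        rw [← hmι, ← mul_assoc m m, hm, one_mul, mul_assoc _ ι ι, hι, mul_one]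
    _ = p * s⁻¹ * (p'⁻¹ * m) * ι * m * ι := by group
    _ = p * (s⁻¹ * m) * (p' * ι) * m * ι := by rw [← h6]; group
    _ = (p * m * (e⁻¹ * ι) * (p * m)) * ι := by rw [← h4, ← h5]; group
    _ = σ * ι := by rw [h2]

end grp

end Pool.Agent.Helper96.OP
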