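import Pool.Agent.Helper96.OP.Q2b

/-!
Gersten's relations from the relations in finite subgroups.
-/

set_option autoImplicit false

namespace Pool.Agent.Helper96.OP

variable {n : ℕ} [NeZero n] {K : Type} [Group K]

namespace LD

variable (D : LD n K)

/-- the transvection `x_1 ↦ a x_1` -/
def T : K := D.th 1 * D.ρ mm

lemma mm_mm : D.ρ mm * D.ρ mm = 1 := by rw [← map_mul, mm, sw_mul_self, map_one]

lemma mm_inv : (D.ρ mm)⁻¹ = D.ρ mm := inv_eq_of_mul_eq_one_left D.mm_mm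

lemma T_mm : D.T * D.ρ mm = D.th 1 := by rw [T, mul_assoc, D.mm_mm, mul_one]

lemma T_inv (hn : 3 ≤ n) : (D.T)⁻¹ = D.ρ mm * D.T * (D.ρ mm)⁻¹ := by
  have h1 : (D.th 1)⁻¹ = D.th 1 := inv_eq_of_mul_eq_one_left (D.th_sq 1 (by omega))
  rw [T, mul_inv_rev, D.mm_inv, h1, mul_assoc, mul_assoc (D.th 1), D.mm_mm, mul_one]

lemma comm_of_eq {G : Type} [Group G] {x y z : G} (h1 : x * y = y * x) (h2 : x * z = z * x) :
    x * (y * z) = (y * z) * x := by
  rw [← mul_assoc, h1, mul_assoc, h2, mul_assoc]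

lemma T_stab (v : W (Fin n)) (h1 : ap v x1 = x1) (h2 : ap v cir = cir) :
    D.ρ v * D.T = D.T * D.ρ v := by
  apply comm_of_eq (D.th_rho v h1 h2).symm
  have h := conj_sw' v cir (inv cir)
  rw [ap_inv, h2, mul_inv_eq_iff_eq_mul] at h
  rw [mm, ← map_mul, ← map_mul, h]

open Classical in
/-- the transvections -/
noncomputable def E (hn : 3 ≤ n) (x a : Ltr (Fin n)) : K :=
  if h : x.1 = a.1 then 1 else
    D.ρ (wExists hn x a h).choose * D.T * (D.ρ (wExists hn x a h).choose)⁻¹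

lemma E_self (hn : 3 ≤ n) (x a : Ltr (Fin n)) (h : x.1 = a.1) : D.E hn x a = 1 := by
  rw [E, dif_pos h]

lemma E_eq (hn : 3 ≤ n) (w : W (Fin n)) :
    D.E hn (ap w x1) (ap w cir) = D.ρ w * D.T * (D.ρ w)⁻¹ := by
  have h : (ap w x1).1 ≠ (ap w cir).1 := ap_fst_ne w (x1_ne hn)
  rw [E, dif_neg h]
  obtain ⟨h1, h2⟩ := (wExists hn (ap w x1) (ap w cir) h).choose_spec
  set v := (wExists hn (ap w x1) (ap w cir) h).choose
  have h3 := D.T_stab (w⁻¹ * v) (by rw [ap_mul, h1, ap_inv_ap]) (by rw [ap_mul, h2, ap_inv_ap])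
  rw [map_mul, map_inv] at h3
  calc D.ρ v * D.T * (D.ρ v)⁻¹
      = D.ρ w * ((D.ρ w)⁻¹ * D.ρ v * D.T) * (D.ρ v)⁻¹ := by group
    _ = D.ρ w * D.T * (D.ρ w)⁻¹ := by rw [h3]; group

lemma E_base (hn : 3 ≤ n) : D.E hn x1 cir = D.T := by
  have := D.E_eq hn 1
  rwa [ap_one, ap_one, map_one, one_mul, inv_one, mul_one] at this

lemma E_act (hn : 3 ≤ n) (v : W (Fin n)) (x a : Ltr (Fin n)) :
    D.ρ v * D.E hn x a * (D.ρ v)⁻¹ = D.E hn (ap v x) (ap v a) := by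
  by_cases h : x.1 = a.1
  · rw [D.E_self hn x a h, D.E_self hn _ _ (ap_fst v h), mul_one, mul_inv_cancel]
  · obtain ⟨w, rfl, rfl⟩ := wExists hn x a h
    rw [← ap_mul, ← ap_mul, D.E_eq, D.E_eq, map_mul, mul_inv_rev]
    group

lemma E_act' (hn : 3 ≤ n) (v : W (Fin n)) (hv : v * v = 1) (x a : Ltr (Fin n)) :
    D.ρ v * D.E hn x a * (D.ρ v) = D.E hn (ap v x) (ap v a) := by
  rw [← D.E_act, ← map_inv, inv_eq_of_mul_eq_one_left hv]

lemma mm_fix {x : Ltr (Fin n)} (h : x.1 ≠ (cir : Ltr (Fin n)).1) : ap mm x = x :=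
  sw_fix _ _ _ h h

lemma mm_sq : (mm : W (Fin n)) * mm = 1 := sw_mul_self _ _

lemma mm_cir : ap mm (cir : Ltr (Fin n)) = inv cir := sw_left _ _

lemma mm_cir' : ap mm (inv (cir : Ltr (Fin n))) = cir := sw_right _ _

lemma E_inv (hn : 3 ≤ n) (x a : Ltr (Fin n)) : D.E hn x (inv a) = (D.E hn x a)⁻¹ := by
  by_cases h : x.1 = a.1
  · rw [D.E_self hn x a h, D.E_self hn x (inv a) h, inv_one]
  · obtain ⟨w, rfl, rfl⟩ := wExists hn x a h
    have h1 : ap w x1 = ap (w * mm) x1 := by rw [ap_mul, mm_fix (x1_ne hn)]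
    have h2 : inv (ap w cir) = ap (w * mm) cir := by rw [ap_mul, mm_cir, ap_inv]
    rw [h2, D.E_eq, h1, D.E_eq, map_mul]
    have h3 := D.T_inv hn
    calc D.ρ w * D.ρ mm * D.T * (D.ρ w * D.ρ mm)⁻¹
        = D.ρ w * (D.ρ mm * D.T * (D.ρ mm)⁻¹) * (D.ρ w)⁻¹ := by group
      _ = (D.ρ w * D.T * (D.ρ w)⁻¹)⁻¹ := by rw [← h3]; group


/-! ### the wheel -/

/-- the transvection of the leg `i` -/
def tau (i : Fin n) : K :=
  D.lam (Equiv.swap (Fin.ofNat n 1) i) * D.T * (D.lam (Equiv.swap (Fin.ofNat n 1) i))⁻¹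

lemma one_ne (hn : 3 ≤ n) : (Fin.ofNat n 1 : Fin n) ≠ 0 := by
  intro h
  have := congrArg Fin.val h
  simp [Nat.mod_eq_of_lt (show 1 < n by omega)] at this

lemma lam_T (hn : 3 ≤ n) (π : Equiv.Perm (Fin n)) (h : π (Fin.ofNat n 1) = Fin.ofNat n 1) :
    D.lam π * D.T = D.T * D.lam π := by
  have h1 : ((Fin.ofNat n 1 : Fin n) : ℕ) = 1 := by simp [Nat.mod_eq_of_lt (show 1 < n by omega)]
  have h2 : ∀ j : Fin n, (j ≠ 0 ∧ (j : ℕ) ≤ 1) ↔ j = (Fin.ofNat n 1) := by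
    intro j
    rw [Fin.ext_iff, h1, Ne, Fin.ext_iff]
    simp only [Fin.val_zero]
    omega
  have h3 : ∀ j : Fin n, (j ≠ 0 ∧ (j : ℕ) ≤ 1) ↔ (π j ≠ 0 ∧ (π j : ℕ) ≤ 1) := by
    intro j
    rw [h2, h2]
    constructor
    · rintro rfl
      exact h
    · intro h4
      rw [← h] at h4
      exact π.injective h4
  exact comm_of_eq (D.th_lam 1 (by omega) π h3).symm (D.mm_lam π).symm

lemma tau_eq (hn : 3 ≤ n) (π : Equiv.Perm (Fin n)) :
    D.lam π * D.T * (D.lam π)⁻¹ = D.tau (π (Fin.ofNat n 1)) := by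
  have h := D.lam_T hn ((Equiv.swap (Fin.ofNat n 1) (π (Fin.ofNat n 1)))⁻¹ * π) (by simp)
  rw [map_mul, map_inv] at h
  rw [tau]
  calc D.lam π * D.T * (D.lam π)⁻¹
      = D.lam (Equiv.swap (Fin.ofNat n 1) (π (Fin.ofNat n 1))) * ((D.lam (Equiv.swap (Fin.ofNat n 1) (π (Fin.ofNat n 1))))⁻¹ * D.lam π * D.T) *
          (D.lam π)⁻¹ := by group
    _ = _ := by rw [h]; group

lemma tau_act (hn : 3 ≤ n) (π : Equiv.Perm (Fin n)) (i : Fin n) :
    D.lam π * D.tau i * (D.lam π)⁻¹ = D.tau (π i) := by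
  have h := D.tau_eq hn (π * Equiv.swap (Fin.ofNat n 1) i)
  rw [Equiv.Perm.mul_apply, Equiv.swap_apply_left] at h
  rw [← h, tau, map_mul]
  group

lemma tau_E (hn : 3 ≤ n) (i : Fin n) (hi : i ≠ 0) : D.tau i = D.E hn (i, true) cir := by
  have h0 : Equiv.swap (Fin.ofNat n 1) i 0 = 0 := Equiv.swap_apply_of_ne_of_ne (one_ne hn).symm hi.symm
  have h := D.E_eq hn (permW (Equiv.swap (Fin.ofNat n 1) i))
  have h1 : ap (permW (Equiv.swap (Fin.ofNat n 1) i)) (x1 : Ltr (Fin n)) = (i, true) := by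
    show (Equiv.swap (Fin.ofNat n 1) i (Fin.ofNat n 1), true) = (i, true)
    rw [Equiv.swap_apply_left]
  have h2 : ap (permW (Equiv.swap (Fin.ofNat n 1) i)) (cir : Ltr (Fin n)) = cir := by
    show (Equiv.swap (Fin.ofNat n 1) i 0, true) = (0, true)
    rw [h0]
  rw [h1, h2] at h
  rw [h, tau, D.lam_eq _ h0]

/-- the product of the first transvections of legs -/
def L (k : ℕ) : K := ((List.range k).map fun j => D.tau (Fin.ofNat n (j + 1))).prod

lemma L_zero : D.L 0 = 1 := rfl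

lemma L_succ (k : ℕ) : D.L (k + 1) = D.L k * D.tau (Fin.ofNat n (k + 1)) := by
  rw [L, List.range_succ, List.map_append, List.prod_append, List.map_singleton,
    List.prod_singleton]
  rfl

/-- the rotation of the legs -/
def rot : Equiv.Perm (Fin n) := rf 1 * rf 0

lemma rot_app (j : Fin n) : (rot : Equiv.Perm (Fin n)) j = j + Fin.ofNat n 1 := by
  show Fin.ofNat n (1 + 1) - (Fin.ofNat n (0 + 1) - j) = _
  have h : (Fin.ofNat n (1 + 1) : Fin n) = Fin.ofNat n 1 + Fin.ofNat n 1 := by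
    apply Fin.ext
    simp [Fin.val_add]
  rw [h, zero_add]
  abel

lemma rot_pow_app (k : ℕ) (j : Fin n) : ((rot : Equiv.Perm (Fin n)) ^ k) j = j + Fin.ofNat n k := by
  induction k with
  | zero =>
    rw [pow_zero, Equiv.Perm.one_apply]
    have : (Fin.ofNat n 0 : Fin n) = 0 := rfl
    rw [this, add_zero]
  | succ k ih =>
    rw [pow_succ', Equiv.Perm.mul_apply, ih, rot_app]
    have h : (Fin.ofNat n (k + 1) : Fin n) = Fin.ofNat n k + Fin.ofNat n 1 := by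
      apply Fin.ext
      simp [Fin.val_add]
    rw [h, add_assoc]

lemma wheel_eq : (D.th 1 * D.lam (rf 1)) * (D.th 0 * D.lam (rf 0)) = D.T * D.lam rot := by
  rw [D.th0, T, rot, map_mul]
  calc D.th 1 * D.lam (rf 1) * (D.ρ mm * D.lam (rf 0))
      = D.th 1 * (D.lam (rf 1) * D.ρ mm) * D.lam (rf 0) := by group
    _ = _ := by rw [← D.mm_lam]; group

lemma wheel_pow (hn : 3 ≤ n) (k : ℕ) : (D.T * D.lam rot) ^ k = D.L k * D.lam (rot ^ k) := by
  induction k with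
  | zero => rw [pow_zero, pow_zero, L_zero, map_one, one_mul]
  | succ k ih =>
    have h := D.tau_eq hn (rot ^ k)
    rw [rot_pow_app] at h
    have h2 : (Fin.ofNat n (k + 1) : Fin n) = (Fin.ofNat n 1) + Fin.ofNat n k := by
      apply Fin.ext
      simp [Fin.val_add, add_comm]
    rw [pow_succ, ih, L_succ, h2, ← h, pow_succ, map_mul]
    group

lemma rot_pow_n : (rot : Equiv.Perm (Fin n)) ^ n = 1 := by
  ext j
  rw [rot_pow_app]
  have : (Fin.ofNat n n : Fin n) = 0 := by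
    apply Fin.ext
    simp
  rw [this, add_zero]
  rfl

lemma L_n (hn : 3 ≤ n) : D.L n = 1 := by
  have h := D.fl_pow
  rw [D.wheel_eq, D.wheel_pow hn, rot_pow_n, map_one, mul_one] at h
  exact h

lemma th_eq (hn : 3 ≤ n) (k : ℕ) (hk : k < n) : D.th k = D.L k * D.ρ mm := by
  have h := D.fl k hk
  rw [D.wheel_eq, D.wheel_pow hn, D.th0] at h
  have h2 : (rf k : Equiv.Perm (Fin n)) = rot ^ k * rf 0 := by
    ext j
    rw [Equiv.Perm.mul_apply, rot_pow_app]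
    show ((Fin.ofNat n (k + 1) - j : Fin n) : ℕ) = ((Fin.ofNat n (0 + 1) - j + Fin.ofNat n k : Fin n) : ℕ)
    have h3 : (Fin.ofNat n (k + 1) : Fin n) = Fin.ofNat n (0 + 1) + Fin.ofNat n k := by
      apply Fin.ext
      simp [Fin.val_add, add_comm]
    rw [h3]
    congr 1
    abel
  have h4 : D.lam (rf k) = D.lam (rot ^ k) * D.lam (rf 0) := by rw [h2, map_mul]
  have h5 := D.mm_lam (rot ^ k)
  calc D.th k = (D.th k * D.lam (rf k)) * (D.lam (rf k))⁻¹ := by group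
    _ = D.L k * (D.lam (rot ^ k) * D.ρ mm) * (D.lam (rot ^ k))⁻¹ := by rw [h, h4]; group
    _ = D.L k * D.ρ mm := by rw [← h5]; group

lemma tau_comm (hn : 3 ≤ n) : D.tau (Fin.ofNat n 1) * D.tau (Fin.ofNat n 2) =
    D.tau (Fin.ofNat n 2) * D.tau (Fin.ofNat n 1) := by
  obtain ⟨m, hm⟩ : ∃ m, n = 2 + m := ⟨n - 2, by omega⟩
  have h0 : List.range n = List.range (2 + m) := congrArg _ hm
  have h1 := D.L_n hn
  rw [L, h0, List.range_add, List.map_append, List.prod_append] at h1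
  have h2 : ((List.range 2).map fun j => D.tau (Fin.ofNat n (j + 1))).prod =
      D.tau (Fin.ofNat n 1) * D.tau (Fin.ofNat n 2) := by
    simp [List.range_succ]
  rw [h2, List.map_map] at h1
  set R := (List.map ((fun j => D.tau (Fin.ofNat n (j + 1))) ∘ fun x => 2 + x)
    (List.range m)).prod with hR
  set π : Equiv.Perm (Fin n) := Equiv.swap (Fin.ofNat n 1) (Fin.ofNat n 2) with hπ
  have h3 : D.lam π * R * (D.lam π)⁻¹ = R := by
    rw [hR, ← MulAut.conj_apply, map_list_prod, List.map_map]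
    congr 1
    apply List.map_congr_left
    intro j hj
    rw [List.mem_range] at hj
    simp only [Function.comp_apply, MulAut.conj_apply]
    rw [D.tau_act hn, hπ, Equiv.swap_apply_of_ne_of_ne]
    · intro h
      have h5 := congrArg Fin.val h
      simp only [Fin.ofNat, Nat.mod_eq_of_lt (show 1 < n by omega)] at h5
      rcases Nat.lt_or_ge (2 + j + 1) n with h6 | h6
      · rw [Nat.mod_eq_of_lt h6] at h5
        omega
      · rw [show 2 + j + 1 = n by omega, Nat.mod_self] at h5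
        omega
    · intro h
      have h5 := congrArg Fin.val h
      simp only [Fin.ofNat, Nat.mod_eq_of_lt (show 2 < n by omega)] at h5
      rcases Nat.lt_or_ge (2 + j + 1) n with h6 | h6
      · rw [Nat.mod_eq_of_lt h6] at h5
        omega
      · rw [show 2 + j + 1 = n by omega, Nat.mod_self] at h5
        omega
  have h4 := D.tau_act hn π (Fin.ofNat n 1)
  have h5 := D.tau_act hn π (Fin.ofNat n 2)
  rw [hπ, Equiv.swap_apply_left] at h4
  rw [hπ, Equiv.swap_apply_right] at h5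
  rw [← hπ] at h4 h5
  have h6 : D.tau (Fin.ofNat n 2) * D.tau (Fin.ofNat n 1) * R = 1 := by
    calc D.tau (Fin.ofNat n 2) * D.tau (Fin.ofNat n 1) * R
        = (D.lam π * D.tau (Fin.ofNat n 1) * (D.lam π)⁻¹) * (D.lam π * D.tau (Fin.ofNat n 2) * (D.lam π)⁻¹) *
          (D.lam π * R * (D.lam π)⁻¹) := by rw [h3, h4, h5]
      _ = D.lam π * (D.tau (Fin.ofNat n 1) * D.tau (Fin.ofNat n 2) * R) * (D.lam π)⁻¹ := by group
      _ = 1 := by rw [h1]; group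
  exact mul_right_cancel (h1.trans h6.symm)

lemma two_ne (hn : 3 ≤ n) : (Fin.ofNat n 2 : Fin n) ≠ 0 := by
  intro h
  have := congrArg Fin.val h
  simp [Nat.mod_eq_of_lt (show 2 < n by omega)] at this

lemma E_comm_base (hn : 3 ≤ n) :
    D.E hn x1 cir * D.E hn x2 cir = D.E hn x2 cir * D.E hn x1 cir := by
  have h := D.tau_comm hn
  rw [D.tau_E hn _ (one_ne hn), D.tau_E hn _ (two_ne hn)] at h
  exact h

lemma E_comm' (hn : 3 ≤ n) (x y a : Ltr (Fin n)) (hxy : x.1 ≠ y.1) :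
    D.E hn x a * D.E hn y a = D.E hn y a * D.E hn x a := by
  by_cases h1 : x.1 = a.1
  · rw [D.E_self hn x a h1, one_mul, mul_one]
  by_cases h2 : y.1 = a.1
  · rw [D.E_self hn y a h2, one_mul, mul_one]
  obtain ⟨w, rfl, rfl, rfl⟩ := wExists3 hn x y a h1 h2 hxy
  rw [← D.E_act, ← D.E_act]
  have h := D.E_comm_base hn
  calc D.ρ w * D.E hn x1 cir * (D.ρ w)⁻¹ * (D.ρ w * D.E hn x2 cir * (D.ρ w)⁻¹)
      = D.ρ w * (D.E hn x1 cir * D.E hn x2 cir) * (D.ρ w)⁻¹ := by group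
    _ = _ := by rw [h]; group

lemma E_disj_base (hn : 3 ≤ n) (y b : Ltr (Fin n)) (h1 : y ≠ x1) (h2 : y.1 ≠ (cir : Ltr (Fin n)).1)
    (h3 : b.1 ≠ (x1 : Ltr (Fin n)).1) (h4 : y.1 ≠ b.1) (h5 : b.1 ≠ (cir : Ltr (Fin n)).1) :
    D.E hn x1 cir * D.E hn y b = D.E hn y b * D.E hn x1 cir := by
  have hx := x1_ne hn
  obtain ⟨v, hv⟩ : ∃ v, v = sw x1 y * sw cir b := ⟨_, rfl⟩
  have hc : sw x1 y * sw cir b = sw cir b * sw x1 y := sw_disj _ _ _ _ hx.symm h2.symm h3 h4.symm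
  have hvv : v * v = 1 := by
    rw [hv]
    nth_rewrite 2 [hc]
    rw [mul_assoc, ← mul_assoc (sw cir b), sw_mul_self, one_mul, sw_mul_self]
  have hv1 : ap v x1 = y := by
    rw [hv, ap_mul, sw_fix cir b x1 hx h3.symm, sw_left]
  have hv2 : ap v cir = b := by
    rw [hv, ap_mul, sw_left, sw_fix x1 y b h3 h4.symm]
  have h := D.disj v hvv (by rw [hv1]; exact h1) (by rw [hv1]; exact h2) (by rw [hv2]; exact h3)
    (by rw [hv1, hv2]; exact h4) (by rw [hv2]; exact h5)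
  have hvi : v⁻¹ = v := inv_eq_of_mul_eq_one_left hvv
  have hvK : D.ρ v * D.ρ v = 1 := by rw [← map_mul, hvv, map_one]
  have hvKi : (D.ρ v)⁻¹ = D.ρ v := by rw [← map_inv, hvi]
  obtain ⟨m', hm'⟩ : ∃ m', m' = v * mm * v := ⟨_, rfl⟩
  have hm'' : m' = sw b (inv b) := by
    have := conj_sw' v cir (inv cir)
    rw [ap_inv, hv2, hvi] at this
    rw [hm', mm, this]
  have hm1 : ap m' x1 = x1 := by rw [hm'']; exact sw_fix _ _ _ h3.symm h3.symm
  have hm2 : ap m' cir = cir := by rw [hm'']; exact sw_fix _ _ _ h5.symm h5.symm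
  have e1 : D.th 1 * D.ρ m' = D.ρ m' * D.th 1 := D.th_rho m' hm1 hm2
  have e2 : D.ρ mm * (D.ρ v * D.th 1 * D.ρ v) = (D.ρ v * D.th 1 * D.ρ v) * D.ρ mm := by
    have e3 : D.ρ m' = D.ρ v * D.ρ mm * D.ρ v := by rw [hm', map_mul, map_mul]
    rw [e3] at e1
    calc D.ρ mm * (D.ρ v * D.th 1 * D.ρ v)
        = (D.ρ v * D.ρ v) * D.ρ mm * D.ρ v * D.th 1 * D.ρ v := by rw [hvK]; group
      _ = D.ρ v * (D.ρ v * D.ρ mm * D.ρ v * D.th 1) * D.ρ v := by group
      _ = D.ρ v * D.th 1 * D.ρ v * D.ρ mm * (D.ρ v * D.ρ v) := by rw [← e1]; group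
      _ = _ := by rw [hvK]; group
  have e4 : D.ρ mm * D.ρ m' = D.ρ m' * D.ρ mm := by
    rw [← map_mul, ← map_mul, hm'', mm, sw_disj cir (inv cir) b (inv b) h5 h5 h5 h5]
  have e5 : D.E hn y b = (D.ρ v * D.th 1 * D.ρ v) * D.ρ m' := by
    have := D.E_eq hn v
    rw [hv1, hv2, hvKi] at this
    rw [this, T, hm', map_mul, map_mul]
    calc D.ρ v * (D.th 1 * D.ρ mm) * D.ρ v = D.ρ v * D.th 1 * 1 * D.ρ mm * D.ρ v := by group
      _ = _ := by rw [← hvK]; group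
  have c1 : Commute (D.th 1) (D.ρ v * D.th 1 * D.ρ v) := h
  have c2 : Commute (D.th 1) (D.ρ m') := e1
  have c3 : Commute (D.ρ mm) (D.ρ v * D.th 1 * D.ρ v) := e2
  have c4 : Commute (D.ρ mm) (D.ρ m') := e4
  rw [D.E_base, e5, T]
  exact ((c1.mul_right c2).mul_left (c3.mul_right c4)).eq

lemma E_disj (hn : 3 ≤ n) (x y a b : Ltr (Fin n)) (hxy : x ≠ y) (h1 : x.1 ≠ a.1)
    (h2 : x.1 ≠ b.1) (h3 : y.1 ≠ a.1) (h4 : y.1 ≠ b.1) (h5 : a.1 ≠ b.1) :
    D.E hn x a * D.E hn y b = D.E hn y b * D.E hn x a := by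
  obtain ⟨w, rfl, rfl⟩ := wExists hn x a h1
  obtain ⟨y', rfl⟩ : ∃ y', y = ap w y' := ⟨ap w⁻¹ y, (ap_ap_inv w y).symm⟩
  obtain ⟨b', rfl⟩ : ∃ b', b = ap w b' := ⟨ap w⁻¹ b, (ap_ap_inv w b).symm⟩
  have h := D.E_disj_base hn y' b' (fun h => hxy (by rw [h])) (fun h => h3 (ap_fst w h))
    (fun h => h2 (ap_fst w h.symm)) (fun h => h4 (ap_fst w h)) (fun h => h5 (ap_fst w h.symm))
  rw [← D.E_act, ← D.E_act]
  calc D.ρ w * D.E hn x1 cir * (D.ρ w)⁻¹ * (D.ρ w * D.E hn y' b' * (D.ρ w)⁻¹)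
      = D.ρ w * (D.E hn x1 cir * D.E hn y' b') * (D.ρ w)⁻¹ := by group
    _ = _ := by rw [h]; group

lemma th_two (hn : 3 ≤ n) : D.th 2 = D.E hn x2 cir * D.th 1 := by
  rw [D.th_eq hn 2 (by omega), D.L_succ, D.L_succ, D.L_zero, one_mul,
    D.tau_E hn _ (one_ne hn), D.tau_E hn _ (two_ne hn)]
  show D.E hn x1 cir * D.E hn x2 cir * D.ρ mm = _
  rw [D.E_comm_base hn, mul_assoc, D.E_base, D.T_mm]

lemma E_conj_base (hn : 3 ≤ n) :
    D.E hn x1 cir * D.E hn x2 x1 * (D.E hn x1 cir)⁻¹ = D.E hn x2 x1 * D.E hn x2 cir := by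
  have hσ : (sw x1 (inv cir) : W (Fin n)) * sw x1 (inv cir) = 1 := sw_mul_self _ _
  refine conj_of_cubes (m := D.ρ mm) (σ := D.ρ (sw x1 (inv cir))) (η := D.th 1) ?_
    (D.th_sq 1 (by omega)) D.mm_mm (by rw [← map_mul, hσ, map_one]) (D.E_comm_base hn) ?_ ?_ ?_
    D.cube1 ?_
  · rw [D.E_base, D.T_mm]
  · rw [D.E_act' hn _ mm_sq, mm_fix (x2_ne hn), mm_cir, D.E_inv]
  · rw [D.E_act' hn _ mm_sq, mm_fix (x2_ne hn), mm_fix (x1_ne hn)]
  · rw [D.E_act' hn _ hσ, sw_fix x1 (inv cir) x2 (x12_ne hn) (x2_ne hn), ← D.E_inv]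
    congr 1
    have := sw_right x1 (inv (cir : Ltr (Fin n)))
    rw [ap_inv, inv_eq_iff] at this
    exact this
  · rw [← D.th_two]
    exact D.cube2

lemma E_conj (hn : 3 ≤ n) (x a b : Ltr (Fin n)) (h1 : x.1 ≠ a.1) (h2 : x.1 ≠ b.1)
    (h3 : a.1 ≠ b.1) :
    D.E hn a b * D.E hn x a * (D.E hn a b)⁻¹ = D.E hn x a * D.E hn x b := by
  obtain ⟨w, rfl, rfl, rfl⟩ := wExists3 hn a x b h3 h2 h1.symm
  rw [← D.E_act, ← D.E_act, ← D.E_act]
  have h := D.E_conj_base hn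
  calc D.ρ w * D.E hn x1 cir * (D.ρ w)⁻¹ * (D.ρ w * D.E hn x2 x1 * (D.ρ w)⁻¹) *
        (D.ρ w * D.E hn x1 cir * (D.ρ w)⁻¹)⁻¹
      = D.ρ w * (D.E hn x1 cir * D.E hn x2 x1 * (D.E hn x1 cir)⁻¹) * (D.ρ w)⁻¹ := by group
    _ = _ := by rw [h]; group

omit [NeZero n] in
lemma exists_third (hn : 3 ≤ n) (i j : Fin n) : ∃ k, k ≠ i ∧ k ≠ j := by
  obtain ⟨k, hk⟩ : ∃ k, k ∉ ({i, j} : Finset (Fin n)) := by
    by_contra h
    push Not at h
    have h1 : Fintype.card (Fin n) ≤ ({i, j} : Finset (Fin n)).card :=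
      Finset.card_le_card fun x _ => h x
    have h2 := Finset.card_le_two (a := i) (b := j)
    rw [Fintype.card_fin] at h1
    omega
  rw [Finset.mem_insert, Finset.mem_singleton, not_or] at hk
  exact ⟨k, hk⟩

lemma E_comm (hn : 3 ≤ n) (x y a : Ltr (Fin n)) :
    D.E hn x a * D.E hn y a = D.E hn y a * D.E hn x a := by
  by_cases hxy : x.1 = y.1
  · by_cases hxa : x.1 = a.1
    · rw [D.E_self hn x a hxa, one_mul, mul_one]
    rcases eq_or_eq_inv hxy with rfl | rfl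
    · rfl
    · obtain ⟨k, hk1, hk2⟩ := exists_third hn y.1 a.1
      have h1 := D.E_conj hn y (k, true) a hk1.symm (fun h => hxa h) hk2
      have h2 : D.E hn y a = (D.E hn y (k, true))⁻¹ *
          (D.E hn (k, true) a * D.E hn y (k, true) * (D.E hn (k, true) a)⁻¹) := by
        rw [h1]
        group
      have c1 : Commute (D.E hn (inv y) a) (D.E hn y (k, true)) :=
        D.E_disj hn (inv y) y a (k, true) (inv_ne y) hxa hk1.symm hxa hk1.symm hk2.symm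
      have c2 : Commute (D.E hn (inv y) a) (D.E hn (k, true) a) :=
        D.E_comm' hn _ _ _ (fun h => hk1 h.symm)
      rw [h2]
      exact (c1.inv_right.mul_right ((c2.mul_right c1).mul_right c2.inv_right)).eq
  · exact D.E_comm' hn x y a hxy

lemma E_rank_base (hn : 3 ≤ n) :
    D.E hn x1 cir * (D.E hn cir x1)⁻¹ * (D.E hn (inv x1) cir)⁻¹ =
      D.ρ (sw cir (inv x1) * sw x1 (inv x1)) := by
  have hσ : (sw x1 (inv cir) : W (Fin n)) * sw x1 (inv cir) = 1 := sw_mul_self _ _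
  have hι : (sw x1 (inv x1) : W (Fin n)) * sw x1 (inv x1) = 1 := sw_mul_self _ _
  have hs : (sw cir (inv x1) : W (Fin n)) = sw x1 (inv cir) := by
    rw [← sw_inv_inv x1 (inv cir), inv_inv, sw_comm]
  have hx := x1_ne hn
  have hσ1 : ap (sw x1 (inv cir)) (x1 : Ltr (Fin n)) = inv cir := sw_left _ _
  have hσ2 : ap (sw x1 (inv cir)) (cir : Ltr (Fin n)) = inv x1 := by
    rw [← hs, sw_left]
  have hι1 : ap (sw x1 (inv x1)) (x1 : Ltr (Fin n)) = inv x1 := sw_left _ _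
  have hι2 : ap (sw x1 (inv x1)) (cir : Ltr (Fin n)) = cir := sw_fix _ _ _ hx.symm hx.symm
  rw [hs, map_mul]
  refine rank_of_cube (e := D.E hn (inv cir) x1) (m := D.ρ mm) (η := D.th 1) ?_ D.mm_mm
    (D.th_sq 1 (by omega)) (by rw [← map_mul, hι, map_one]) (by rw [← map_mul, hσ, map_one])
    D.cube1 ?_ ?_ ?_ ?_ ?_ ?_
  · rw [D.E_base, D.T_mm]
  · rw [D.E_act' hn _ hσ, hσ1, hσ2, D.E_inv]
  · have h := conj_sw' (sw x1 (inv cir) : W (Fin n)) cir (inv cir)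
    rw [ap_inv, hσ2, inv_inv, sw_inv_eq, sw_comm (inv x1) x1] at h
    rw [← h, map_mul, map_mul, mm]
  · rw [D.E_act' hn _ mm_sq, mm_cir', mm_fix hx]
  · rw [D.E_act' hn _ hι, hι1, hι2]
  · rw [D.E_act' hn _ mm_sq, mm_fix (x := inv x1) hx, mm_cir, D.E_inv]
  · rw [← map_mul, ← map_mul, mm, sw_disj cir (inv cir) x1 (inv x1) hx hx hx hx]

lemma E_rank (hn : 3 ≤ n) (x a : Ltr (Fin n)) (h : x.1 ≠ a.1) :
    D.E hn a x * (D.E hn x a)⁻¹ * (D.E hn (inv a) x)⁻¹ =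
      D.ρ (sw x (inv a) * sw a (inv a)) := by
  obtain ⟨w, rfl, rfl⟩ := wExists hn a x h.symm
  have h1 := D.E_rank_base hn
  rw [← ap_inv, ← D.E_act, ← D.E_act, ← D.E_act, ← conj_sw', ← conj_sw']
  calc D.ρ w * D.E hn x1 cir * (D.ρ w)⁻¹ * (D.ρ w * D.E hn cir x1 * (D.ρ w)⁻¹)⁻¹ *
        (D.ρ w * D.E hn (inv x1) cir * (D.ρ w)⁻¹)⁻¹
      = D.ρ w * (D.E hn x1 cir * (D.E hn cir x1)⁻¹ * (D.E hn (inv x1) cir)⁻¹) * (D.ρ w)⁻¹ := by
        group
    _ = _ := by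
      rw [h1]
      simp only [map_mul, map_inv]
      group

/-- Gersten's relations hold in `K`. -/
noncomputable def gersten (hn : 3 ≤ n) : Gersten (Fin n) K where
  ρ := D.ρ
  E := D.E hn
  E_self := D.E_self hn
  E_inv := D.E_inv hn
  E_comm := D.E_comm hn
  E_disj := D.E_disj hn
  E_conj := D.E_conj hn
  E_rank := D.E_rank hn
  E_act := D.E_act hn

end LD

end Pool.Agent.Helper96.OP
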