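import Pool.Agent.Helper96.OP.Q2c

/-!
The universal property of `Out(F_n)` with respect to its finite subgroups.
-/

set_option autoImplicit false

namespace Pool.Agent.Helper96.OP

variable {n : ℕ} [NeZero n] {K : Type} [Group K]

/-- the letters `x_1, …, x_k` -/
def fk (n k : ℕ) [NeZero n] (x : Ltr (Fin n)) : ℤ :=
  if x.2 = true ∧ x.1 ≠ 0 ∧ (x.1 : ℕ) ≤ k then 1 else 0

lemma fk_succ (k : ℕ) (hk : k + 1 < n) :
    fk n (k + 1) = fk n k + Pi.single (Fin.ofNat n (k + 1), true) 1 := by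
  funext x
  obtain ⟨j, b⟩ := x
  rw [Pi.add_apply]
  have h1 : (Fin.ofNat n (k + 1) : Fin n).val = k + 1 := by
    simp [Nat.mod_eq_of_lt hk]
  by_cases h : ((j, b) : Ltr (Fin n)) = (Fin.ofNat n (k + 1), true)
  · rw [h, Pi.single_eq_same, fk, fk, if_pos, if_neg, zero_add]
    · rintro ⟨-, -, h3⟩
      simp only at h3
      omega
    · refine ⟨rfl, ?_, ?_⟩
      · intro h4
        have := congrArg Fin.val h4
        rw [h1] at this
        simp at this
      · simp only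
        omega
  · rw [Pi.single_eq_of_ne h, add_zero, fk, fk]
    congr 1
    rw [eq_iff_iff]
    constructor
    · rintro ⟨h2, h3, h4⟩
      refine ⟨h2, h3, ?_⟩
      simp only at h2 h4 ⊢
      by_contra h5
      apply h
      rw [h2]
      congr 1
      apply Fin.ext
      rw [h1]
      omega
    · rintro ⟨h2, h3, h4⟩
      exact ⟨h2, h3, by simp only at h4 ⊢; omega⟩

lemma Th_def (k : ℕ) : (Th k : MulAut (FreeGroup (Fin n))) = tw cir (fk n k) * autW mm := rfl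

section

variable (D : LD n K) (hn : 3 ≤ n) (Φ : MulAut (FreeGroup (Fin n)) →* K)
  (hΦ1 : ∀ v, Φ (autW v) = D.ρ v) (hΦ2 : ∀ x a, Φ (tv x a) = D.E hn x a)

include hΦ1 hΦ2

lemma Phi_tw (k : ℕ) (hk : k < n) : Φ (tw cir (fk n k)) = D.L k := by
  induction k with
  | zero =>
    have h : fk n 0 = 0 := by
      funext x
      rw [fk, if_neg, Pi.zero_apply]
      rintro ⟨-, h1, h2⟩
      exact h1 (Fin.ext (Nat.le_zero.mp h2))
    rw [h, tw_zero, map_one, D.L_zero]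
  | succ k ih =>
    have h1 : (Fin.ofNat n (k + 1) : Fin n) ≠ 0 := by
      intro h4
      have := congrArg Fin.val h4
      simp [Nat.mod_eq_of_lt hk] at this
    rw [fk_succ k hk, tw_add, map_mul, ih (by omega), D.L_succ, D.tau_E hn _ h1, ← hΦ2]
    rfl

lemma Phi_Th (k : ℕ) (hk : k < n) : Φ (Th k) = D.th k := by
  rw [Th_def, map_mul, Phi_tw D hn Φ hΦ1 hΦ2 k hk, hΦ1, ← D.th_eq hn k hk]

lemma Phi_Psi (π : Equiv.Perm (Fin n)) : Φ (Psi π) = D.lam π := by
  have hfix : ∀ π : Equiv.Perm (Fin n), π 0 = 0 → Φ (Psi π) = D.lam π := fun π h => by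
    rw [Psi_eq_autW π h, hΦ1, D.lam_eq π h]
  have hlast : Φ (Psi (Equiv.swap 0 (Fin.ofNat n (n - 1)))) =
      D.lam (Equiv.swap 0 (Fin.ofNat n (n - 1))) := by
    obtain ⟨w, h1, -, -, h4, h5⟩ := exists_last hn
    rw [← D.last w h1 h4 h5, ← h4, map_mul, map_mul, hΦ1,
      Phi_Th D hn Φ hΦ1 hΦ2 (n - 2) (by omega)]
  have hne : (Fin.ofNat n (n - 1) : Fin n) ≠ 0 := by
    intro h4
    have := congrArg Fin.val h4
    simp [Nat.mod_eq_of_lt (show n - 1 < n by omega)] at this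
    omega
  have hswap : ∀ i : Fin n, i ≠ 0 → Φ (Psi (Equiv.swap 0 i)) = D.lam (Equiv.swap 0 i) := by
    intro i hi
    have h1 : Equiv.swap 0 i = Equiv.swap i (Fin.ofNat n (n - 1)) *
        Equiv.swap 0 (Fin.ofNat n (n - 1)) * (Equiv.swap i (Fin.ofNat n (n - 1)))⁻¹ := by
      rw [← Equiv.swap_apply_apply (Equiv.swap i (Fin.ofNat n (n - 1))),
        Equiv.swap_apply_right, Equiv.swap_apply_of_ne_of_ne hi.symm hne.symm]
    have h2 := hfix (Equiv.swap i (Fin.ofNat n (n - 1)))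
      (Equiv.swap_apply_of_ne_of_ne hi.symm hne.symm)
    rw [h1, map_mul, map_mul, map_mul, map_mul, map_mul, map_mul, map_inv, map_inv, map_inv, h2,
      hlast]
  by_cases h0 : π 0 = 0
  · exact hfix π h0
  · obtain ⟨σ, hσ⟩ : ∃ σ, σ = Equiv.swap 0 (π 0) * π := ⟨_, rfl⟩
    have h1 : π = Equiv.swap 0 (π 0) * σ := by
      rw [hσ, ← mul_assoc, Equiv.swap_mul_self, one_mul]
    have h2 : σ 0 = 0 := by
      rw [hσ, Equiv.Perm.mul_apply, Equiv.swap_apply_right]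
    rw [h1, map_mul, map_mul, map_mul, hswap _ h0, hfix σ h2]

lemma Phi_conj (g : FreeGroup (Fin n)) : Φ (MulAut.conj g) = 1 := by
  have h1 : Φ (MulAut.conj (el cir)) = 1 := by
    rw [← Fl_pow, map_pow, map_mul, Fl, Fl, map_mul, map_mul,
      Phi_Th D hn Φ hΦ1 hΦ2 1 (by omega), Phi_Th D hn Φ hΦ1 hΦ2 0 (by omega),
      Phi_Psi D hn Φ hΦ1 hΦ2, Phi_Psi D hn Φ hΦ1 hΦ2]
    exact D.fl_pow
  have h2 : Φ.comp MulAut.conj = 1 := by
    ext i
    rw [MonoidHom.comp_apply, MonoidHom.one_apply, ← el_true]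
    have h3 : el ((i, true) : Ltr (Fin n)) = autW (sw cir (i, true)) (el cir) := by
      rw [autW_el, sw_left]
    have h4 : MulAut.conj (autW (sw cir (i, true)) (el (cir : Ltr (Fin n)))) =
        autW (sw cir (i, true)) * MulAut.conj (el cir) * (autW (sw cir (i, true)))⁻¹ := by
      ext x
      simp [MulAut.conj_apply]
    rw [h3, h4, map_mul, map_mul, h1, mul_one, map_inv, mul_inv_cancel]
  exact DFunLike.congr_fun h2 g

end

/-- The universal property of `Out(F_n)` with respect to the finite subgroups generated by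
subsets of `X n`. -/
theorem exists_hom (hn : 3 ≤ n) (κ : Out n → K) (hκ : Good (X n) κ) :
    ∃ Ω : Out n →* K, ∀ x ∈ X n, Ω x = κ x := by
  obtain ⟨D, hD1, hD2, hD3, hD4⟩ := exists_LD hn κ hκ
  obtain ⟨Φ, hΦ1, hΦ2⟩ := gersten_lift (D.gersten hn)
  have hΦ1' : ∀ v, Φ (autW v) = D.ρ v := hΦ1
  have hΦ2' : ∀ x a, Φ (tv x a) = D.E hn x a := hΦ2
  refine ⟨QuotientGroup.lift _ Φ ?_, ?_⟩
  · rintro _ ⟨g, rfl⟩
    exact Phi_conj D hn Φ hΦ1' hΦ2' g
  · rintro _ ⟨α, hα, rfl⟩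
    show Φ α = _
    rcases hα with (⟨v, rfl⟩ | ⟨π, rfl⟩) | ⟨k, hk, rfl | rfl⟩
    · rw [hΦ1', hD1]
    · rw [Phi_Psi D hn Φ hΦ1' hΦ2', hD2]
    · rw [Phi_Th D hn Φ hΦ1' hΦ2' k hk, hD3]
    · rw [← hD4 k hk, Fl, map_mul, Phi_Th D hn Φ hΦ1' hΦ2' k hk, Phi_Psi D hn Φ hΦ1' hΦ2']

/-- `Out(F_n)` is generated by `X n`. -/
theorem closure_X (hn : 3 ≤ n) : Subgroup.closure (X n) = ⊤ := by
  have h1 : (⊤ : Subgroup (MulAut (FreeGroup (Fin n)))) ≤
      (Subgroup.closure (X n)).comap (pr n) := by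
    rw [← nielsen, Subgroup.closure_le]
    have hW : ∀ v : W (Fin n), autW v ∈ (Subgroup.closure (X n)).comap (pr n) := fun v =>
      Subgroup.subset_closure (autW_mem v)
    have hT : tv x1 cir ∈ (Subgroup.closure (X n)).comap (pr n) := by
      have h2 : tv x1 cir = Th 1 * (autW (mm : W (Fin n)))⁻¹ := by
        rw [Th_one (by omega), mul_inv_cancel_right, x1]
      rw [h2]
      exact mul_mem (Subgroup.subset_closure (Th_mem 1 (by omega))) (inv_mem (hW mm))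
    rintro α (⟨v, rfl⟩ | ⟨x, a, rfl⟩)
    · exact hW v
    · obtain ⟨𝔤, h𝔤1, h𝔤2⟩ := exists_gerstenAut (ι := Fin n)
      by_cases h : x.1 = a.1
      · have := 𝔤.E_self x a h
        rw [h𝔤2] at this
        rw [this]
        exact one_mem _
      · obtain ⟨w, rfl, rfl⟩ := wExists hn x a h
        have := 𝔤.E_act w x1 cir
        rw [h𝔤1, h𝔤2] at this
        rw [← this]
        exact mul_mem (mul_mem (hW w) hT) (inv_mem (hW w))
  rw [eq_top_iff]
  intro x _
  obtain ⟨α, rfl⟩ := QuotientGroup.mk_surjective x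
  exact h1 (Subgroup.mem_top α)

theorem X_finite : (X n).Finite := by
  apply Set.Finite.image
  refine (Set.Finite.union (Set.finite_range _) (Set.finite_range _)).union ?_
  have h : {α : MulAut (FreeGroup (Fin n)) | ∃ k < n, α = Th k ∨ α = Fl k} ⊆
      (Set.range fun k : Fin n => Th k) ∪ Set.range fun k : Fin n => Fl k := by
    rintro α ⟨k, hk, rfl | rfl⟩
    · exact Or.inl ⟨⟨k, hk⟩, rfl⟩
    · exact Or.inr ⟨⟨k, hk⟩, rfl⟩
  exact ((Set.finite_range _).union (Set.finite_range _)).subset h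

theorem X_torsion : ∀ x ∈ X n, IsOfFinOrder x := by
  rintro _ ⟨α, (⟨v, rfl⟩ | ⟨π, rfl⟩) | ⟨k, hk, rfl | rfl⟩, rfl⟩
  · exact ((pr n).comp autW).isOfFinOrder (isOfFinOrder_of_finite v)
  · exact ((pr n).comp Psi).isOfFinOrder (isOfFinOrder_of_finite π)
  · refine isOfFinOrder_iff_pow_eq_one.mpr ⟨2, by norm_num, ?_⟩
    rw [← map_pow, pow_two, Th_sq, map_one]
  · refine isOfFinOrder_iff_pow_eq_one.mpr ⟨2, by norm_num, ?_⟩
    rw [← map_pow, pow_two, Fl_sq k hk, map_one]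

end Pool.Agent.Helper96.OP
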