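import Pool.Agent.Helper96.OP.PushDefs
import Pool.Agent.Helper96.OP.Q2d

/-!
# A criterion for being a finite pushout of finite subgroups
-/

set_option autoImplicit false

namespace Pool.Agent.Helper96.OutPush

open Pool.Agent.Helper96.OP

/-- a poset with a greatest element has a contractible realisation -/
theorem simplyConnected_of_top {Q : Type} [PartialOrder Q] [Fintype Q] (t : Q)
    (ht : ∀ q, q ≤ t) : SimplyConnectedSpace (realisation Q) := by
  classical
  have hmem : Pi.single t (1 : ℝ) ∈ realisation Q := by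
    refine ⟨fun q => ?_, ?_, fun p q hp hq => ?_⟩
    · by_cases h : q = t
      · subst h; simp
      · rw [Pi.single_eq_of_ne h]
    · rw [Finset.sum_pi_single']
      simp
    · have h1 : p = t := by
        by_contra h
        exact hp (Pi.single_eq_of_ne h 1)
      rw [h1]
      exact Or.inr (ht q)
  have hstar : StarConvex ℝ (Pi.single t (1 : ℝ)) (realisation Q) := by
    rintro f ⟨h1, h2, h3⟩ a b ha hb hab
    have hval : ∀ q, q ≠ t → (a • Pi.single t (1 : ℝ) + b • f : Q → ℝ) q = b * f q := fun q hq => by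
      simp [Pi.single_eq_of_ne hq]
    refine ⟨fun q => ?_, ?_, fun p q hp hq => ?_⟩
    · have : (0 : ℝ) ≤ (Pi.single t (1 : ℝ) : Q → ℝ) q := hmem.1 q
      have h4 := h1 q
      simp only [Pi.add_apply, Pi.smul_apply, smul_eq_mul]
      positivity
    · simp only [Pi.add_apply, Pi.smul_apply, smul_eq_mul]
      rw [Finset.sum_add_distrib, ← Finset.mul_sum, ← Finset.mul_sum, h2, hmem.2.1, mul_one,
        mul_one, hab]
    · by_cases hpt : p = t
      · rw [hpt]
        exact Or.inr (ht q)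
      by_cases hqt : q = t
      · rw [hqt]
        exact Or.inl (ht p)
      rw [hval p hpt] at hp
      rw [hval q hqt] at hq
      exact h3 p q (right_ne_zero_of_mul hp) (right_ne_zero_of_mul hq)
  have := hstar.contractibleSpace ⟨_, hmem⟩
  exact SimplyConnectedSpace.ofContractible _

section general

variable {Γ : Type} [Group Γ] (X : Set Γ)

/-- the finite subgroups generated by subsets of `X`, ordered by reverse inclusion -/
def Fam : Type := {H : Subgroup Γ // Finite H ∧ ∃ S ⊆ X, H = Subgroup.closure S}ᵒᵈ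

instance : PartialOrder (Fam X) :=
  inferInstanceAs (PartialOrder {H : Subgroup Γ // Finite H ∧ ∃ S ⊆ X, H = Subgroup.closure S}ᵒᵈ)

variable {X}

/-- the subgroup of an element of the poset -/
def Fam.sub (σ : Fam X) : Subgroup Γ := (OrderDual.ofDual σ).1

lemma Fam.sub_le {σ τ : Fam X} (h : τ ≤ σ) : σ.sub ≤ τ.sub := h

lemma Fam.fin (σ : Fam X) : Finite σ.sub := (OrderDual.ofDual σ).2.1

lemma Fam.ex (σ : Fam X) : ∃ S ⊆ X, σ.sub = Subgroup.closure S := (OrderDual.ofDual σ).2.2

/-- the element of the poset given by a subset -/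
def Fam.mk (S : Set Γ) (hS : S ⊆ X) (hf : Finite (Subgroup.closure S)) : Fam X :=
  OrderDual.toDual ⟨Subgroup.closure S, hf, S, hS, rfl⟩

lemma Fam.mk_sub (S : Set Γ) (hS : S ⊆ X) (hf : Finite (Subgroup.closure S)) :
    (Fam.mk S hS hf).sub = Subgroup.closure S := rfl

lemma finite_Fam (hX : X.Finite) : Finite (Fam X) := by
  have h1 : (X.powerset).Finite := hX.finite_subsets
  have h2 : {H : Subgroup Γ | Finite H ∧ ∃ S ⊆ X, H = Subgroup.closure S}.Finite := by
    refine (h1.image Subgroup.closure).subset ?_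
    rintro H ⟨-, S, hS, rfl⟩
    exact ⟨S, hS, rfl⟩
  exact h2.to_subtype

variable (X) in
/-- the simple complex of groups -/
def cx : SimpleComplex (Fam X) where
  G σ := σ.sub
  ψ _ _ h := Subgroup.inclusion (Fam.sub_le h.le)
  injective _ _ _ := Subgroup.inclusion_injective _
  comp _ _ _ _ _ := rfl

/-- the general criterion -/
theorem isFinitePushout_of (hX : X.Finite) (hgen : Subgroup.closure X = ⊤)
    (htor : ∀ x ∈ X, IsOfFinOrder x)
    (huniv : ∀ (K : Type) [Group K] (κ : Γ → K), Good X κ →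
      ∃ Ω : Γ →* K, ∀ x ∈ X, Ω x = κ x) : IsFinitePushout Γ := by
  classical
  have hfin := finite_Fam hX
  have : Fintype (Fam X) := Fintype.ofFinite _
  have hf1 : ∀ x ∈ X, Finite (Subgroup.closure ({x} : Set Γ)) := fun x hx => by
    rw [← Subgroup.zpowers_eq_closure]
    exact (htor x hx).finite_zpowers
  have hs1 : ∀ x ∈ X, ({x} : Set Γ) ⊆ X := fun x hx => Set.singleton_subset_iff.mpr hx
  have hm1 : ∀ x : Γ, x ∈ Subgroup.closure ({x} : Set Γ) := fun x =>
    Subgroup.subset_closure rfl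
  refine ⟨Fam X, inferInstance, this, cx X, fun σ => σ.sub.subtype, fun σ => σ.fin, ?_,
    ⟨fun _ _ _ _ => rfl, ?_⟩, fun σ => Subtype.val_injective⟩
  · have hf0 : Finite (Subgroup.closure (∅ : Set Γ)) := by
      rw [Subgroup.closure_empty]
      infer_instance
    refine simplyConnected_of_top (Fam.mk ∅ (Set.empty_subset X) hf0) fun σ => ?_
    show Subgroup.closure ∅ ≤ σ.sub
    rw [Subgroup.closure_empty]
    exact bot_le
  · intro K _ f hf
    have hf' : ∀ (σ τ : Fam X) (h : τ ≤ σ) (g : Γ) (hg : g ∈ σ.sub),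
        f τ (⟨g, Fam.sub_le h hg⟩ : τ.sub) = f σ (⟨g, hg⟩ : σ.sub) := by
      intro σ τ h g hg
      rcases h.eq_or_lt with rfl | h'
      · rfl
      · exact hf σ τ h' (⟨g, hg⟩ : σ.sub)
    let κ : Γ → K := fun x => if hx : x ∈ X then
      f (Fam.mk {x} (hs1 x hx) (hf1 x hx))
        (⟨x, hm1 x⟩ : (Fam.mk {x} (hs1 x hx) (hf1 x hx)).sub) else 1
    have hκ : ∀ (σ : Fam X) (x : Γ) (hxX : x ∈ X) (hx : x ∈ σ.sub),
        f σ (⟨x, hx⟩ : σ.sub) = κ x := by
      intro σ x hxX hx
      have h1 : κ x = f (Fam.mk {x} (hs1 x hxX) (hf1 x hxX))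
        (⟨x, hm1 x⟩ : (Fam.mk {x} (hs1 x hxX) (hf1 x hxX)).sub) := dif_pos hxX
      have h2 : σ ≤ Fam.mk {x} (hs1 x hxX) (hf1 x hxX) := by
        show Subgroup.closure {x} ≤ σ.sub
        rw [Subgroup.closure_le]
        exact Set.singleton_subset_iff.mpr hx
      rw [h1]
      exact hf' _ _ h2 x (hm1 x)
    have hgood : Good X κ := by
      intro S hS hSf
      exact ⟨f (Fam.mk S hS hSf), fun x hx hxX => hκ (Fam.mk S hS hSf) x hxX hx⟩
    obtain ⟨Ω, hΩ⟩ := huniv K κ hgood
    have key : ∀ (σ : Fam X) (g : Γ) (hg : g ∈ σ.sub), Ω g = f σ (⟨g, hg⟩ : σ.sub) := by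
      intro σ g hg
      obtain ⟨S, hSX, hS⟩ := σ.ex
      have hg' : g ∈ Subgroup.closure S := hS ▸ hg
      induction hg' using Subgroup.closure_induction with
      | mem x hx => rw [hΩ x (hSX hx), hκ σ x (hSX hx) hg]
      | one =>
        rw [map_one]
        exact (map_one (f σ)).symm
      | mul a b ha hb iha ihb =>
        have haσ : a ∈ σ.sub := by rw [hS]; exact ha
        have hbσ : b ∈ σ.sub := by rw [hS]; exact hb
        rw [map_mul, iha haσ, ihb hbσ]
        exact (map_mul (f σ) (⟨a, haσ⟩ : σ.sub) (⟨b, hbσ⟩ : σ.sub)).symm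
      | inv a ha iha =>
        have haσ : a ∈ σ.sub := by rw [hS]; exact ha
        rw [map_inv, iha haσ]
        exact (map_inv (f σ) (⟨a, haσ⟩ : σ.sub)).symm
    refine ⟨Ω, fun σ g => ?_, fun Ψ hΨ => ?_⟩
    · obtain ⟨g, hg⟩ : σ.sub := g
      exact key σ g hg
    · apply MonoidHom.eq_of_eqOn_dense hgen
      intro x hx
      have h1 := hΨ (Fam.mk {x} (hs1 x hx) (hf1 x hx))
        (⟨x, hm1 x⟩ : (Fam.mk {x} (hs1 x hx) (hf1 x hx)).sub)
      have h2 := key (Fam.mk {x} (hs1 x hx) (hf1 x hx)) x (hm1 x)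
      exact h1.trans h2.symm

end general

/-- For every `n ≥ 3` the group `Out(F_n)` is a pushout of finitely many of its finite
subgroups. -/
theorem outF_isFinitePushout (n : ℕ) (hn : 3 ≤ n) : IsFinitePushout (OutF n) := by
  have : NeZero n := ⟨by omega⟩
  exact isFinitePushout_of (X := X n) X_finite (closure_X hn) X_torsion
    fun K _ κ hκ => exists_hom hn κ hκ

end Pool.Agent.Helper96.OutPush
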